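import Pool.Agent.Helper90.MZ.Defs

/-!
# MP_79eb7e_lc, full answer: API for the calculus of independence (all proved)
-/

set_option autoImplicit false

namespace Pool.Agent.Helper90.MZ

open Pool.Agent.Helper90.TS

variable {V G : Type} [Group G] [MulAction G V] {X : Ctx V G} {A B C D : Set V}

/-! ### translates -/

theorem tr_tr (g h : G) (A : Set V) : tr g (tr h A) = tr (g * h) A := by
  ext x
  rw [mem_tr, mem_tr, mem_tr, mul_inv_rev, mul_smul]

theorem tr_one (A : Set V) : tr (1 : G) A = A := by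
  ext x
  rw [mem_tr, inv_one, one_smul]

theorem tr_inv_tr (g : G) (A : Set V) : tr g⁻¹ (tr g A) = A := by
  rw [tr_tr, inv_mul_cancel, tr_one]

theorem tr_tr_inv (g : G) (A : Set V) : tr g (tr g⁻¹ A) = A := by
  rw [tr_tr, mul_inv_cancel, tr_one]

theorem tr_mono (g : G) {A B : Set V} (h : A ⊆ B) : tr g A ⊆ tr g B := Set.image_mono h

theorem tr_countable (g : G) {A : Set V} (h : A.Countable) : (tr g A).Countable := h.image _

theorem tr_finite (g : G) {A : Set V} (h : A.Finite) : (tr g A).Finite := h.image _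

theorem tr_iUnion (g : G) {κ : Type} (S : κ → Set V) : tr g (⋃ i, S i) = ⋃ i, tr g (S i) :=
  Set.image_iUnion

theorem tr_empty (g : G) : tr g (∅ : Set V) = ∅ := Set.image_empty _

theorem tr_eq_of_fx {g : G} {A B : Set V} (hg : g ∈ Fx G A) (h : B ⊆ A) : tr g B = B :=
  tr_fx (fx_anti h hg)

theorem mem_tr_smul {g : G} {A : Set V} {x : V} : g • x ∈ tr g A ↔ x ∈ A := by
  rw [mem_tr, inv_smul_smul]

/-- conjugate of a stabilizer -/
theorem fx_conj {g h : G} {A : Set V} : g * h * g⁻¹ ∈ Fx G (tr g A) ↔ h ∈ Fx G A := by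
  constructor
  · intro H a ha
    have := H (g • a) ⟨a, ha, rfl⟩
    rw [mul_smul, inv_smul_smul, mul_smul] at this
    exact smul_left_cancel g this
  · rintro H _ ⟨a, ha, rfl⟩
    rw [mul_smul, inv_smul_smul, mul_smul, H a ha]

theorem eqv_tr (g : G) {A : Set V} {ι : Type} {b b' : ι → V} :
    Eqv G (tr g A) (g • b) (g • b') ↔ Eqv G A b b' := by
  constructor
  · rintro ⟨k, hk, h⟩
    refine ⟨g⁻¹ * k * g, ?_, ?_⟩
    · have := (fx_conj (g := g) (h := g⁻¹ * k * g) (A := A)).1
      apply this
      have e : g * (g⁻¹ * k * g) * g⁻¹ = k := by group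
      rw [e]
      exact hk
    · rw [mul_smul, mul_smul, h, inv_smul_smul]
  · rintro ⟨k, hk, rfl⟩
    exact ⟨g * k * g⁻¹, fx_conj.2 hk, by rw [mul_smul, mul_smul, inv_smul_smul]⟩

/-! ### calculus of independence -/

theorem si_symm (hA : A.Countable) (hB : B.Countable) (hC : C.Countable) (h : SI X A B C) :
    SI X A C B := (a_calc V G X A B C ∅ hA hB hC Set.countable_empty).1 h

theorem si_union (hA : A.Countable) (hB : B.Countable) (hC : C.Countable) (hD : D.Countable) :
    SI X A B (C ∪ D) ↔ SI X A B C ∧ SI X (A ∪ C) B D :=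
  (a_calc V G X A B C D hA hB hC hD).2.1

theorem si_unionl (hA : A.Countable) (hB : B.Countable) (hC : C.Countable) (hD : D.Countable) :
    SI X A (B ∪ D) C ↔ SI X A B C ∧ SI X (A ∪ B) D C :=
  (a_calc V G X A B C D hA hB hC hD).2.2.1

theorem si_finite (hA : A.Countable) (hB : B.Countable) (hC : C.Countable)
    (h : ∀ B0 C0 : Set V, B0 ⊆ B → C0 ⊆ C → B0.Finite → C0.Finite → SI X A B0 C0) :
    SI X A B C := (a_calc V G X A B C ∅ hA hB hC Set.countable_empty).2.2.2.1 h

theorem rk_si (hA : A.Countable) (hC : C.Countable) {ι : Type} [Finite ι] {b : ι → V} :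
    X.rk (A ∪ C) b = X.rk A b ↔ SI X A (Set.range b) C :=
  (a_calc V G X A (Set.range b) C ∅ hA (Set.countable_range b) hC
    Set.countable_empty).2.2.2.2.1 ι b

theorem si_tr (hA : A.Countable) (hB : B.Countable) (hC : C.Countable) (g : G) :
    SI X (tr g A) (tr g B) (tr g C) ↔ SI X A B C :=
  (a_calc V G X A B C ∅ hA hB hC Set.countable_empty).2.2.2.2.2 g

theorem si_ex (hA : A.Countable) (hB : B.Countable) (hC : C.Countable) :
    ∃ g ∈ Fx G A, SI X A (tr g B) C := a_exts V G X A B C hA hB hC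

theorem si_left {B' : Set V} (hB : B' ⊆ B) (h : SI X A B C) : SI X A B' C :=
  fun n b hb => h n b (hb.trans hB)

theorem si_right {C' : Set V} (hA : A.Countable) (hB : B.Countable) (hC : C.Countable)
    (hC' : C' ⊆ C) (h : SI X A B C) : SI X A B C' := by
  have e : C = C' ∪ C := (Set.union_eq_self_of_subset_left hC').symm
  rw [e] at h
  exact ((si_union hA hB (hC.mono hC') hC).1 h).1

/-- elements of the base can be added on the right and on the left -/
theorem si_self_right (h : C ⊆ A) : SI X A B C := by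
  intro n b _
  rw [Set.union_eq_self_of_subset_right h]

theorem si_self_left (hA : A.Countable) (hC : C.Countable) (h : B ⊆ A) : SI X A B C :=
  si_symm hA hC (hA.mono h) (si_self_right h)

theorem si_empty_right : SI X A B ∅ := si_self_right (Set.empty_subset _)

theorem si_empty_left : SI X A ∅ C := by
  intro n b hb
  rcases n with _ | n
  · have : ∀ A' : Set V, X.rk A' b = X.rk ∅ b := by
      intro A'
      obtain ⟨h1, h2, h3, h4, h5, h6⟩ := a_rkb V G X (Fin 0) b
      refine le_antisymm (h4 ∅ A' (Set.empty_subset _)) ?_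
      obtain ⟨E, hE, hbE, hr⟩ := h1 A'
      have hu : E = {b} := by
        ext x
        constructor
        · intro _
          exact Subsingleton.elim x b
        · intro hx
          rw [Set.mem_singleton_iff] at hx
          rwa [hx]
      have hE0 : X.Ov (∅ : Set V) E := by
        refine ⟨hE.1, fun g _ x hx => ?_⟩
        have : g • x = x := Subsingleton.elim _ _
        rwa [this]
      by_contra hlt
      rw [not_le] at hlt
      have h7 := h2 ∅ E (X.rk A' b) hE0 hbE (by
        rw [hr]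
        exact not_le.2 (Order.lt_succ _))
      exact absurd h7 (not_le.2 hlt)
    rw [this, this A]
  · exact absurd (hb ⟨0, rfl⟩) (Set.notMem_empty _)

theorem si_add_base (hA : A.Countable) (hB : B.Countable) (hC : C.Countable) :
    SI X A B (A ∪ C) ↔ SI X A B C := by
  rw [si_union hA hB hA hC, Set.union_self]
  exact ⟨fun h => h.2, fun h => ⟨si_self_right le_rfl, h⟩⟩

theorem si_add_basel (hA : A.Countable) (hB : B.Countable) (hC : C.Countable) :
    SI X A (A ∪ B) C ↔ SI X A B C := by
  rw [si_unionl hA hA hC hB, Set.union_self]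
  exact ⟨fun h => h.2, fun h => ⟨si_self_left hA hC le_rfl, h⟩⟩

/-- increase of the base inside `A ∪ C` -/
theorem si_up {A' : Set V} (hA : A.Countable) (hB : B.Countable) (hC : C.Countable)
    (h : SI X A B C) (h1 : A ⊆ A') (h2 : A' ⊆ A ∪ C) : SI X A' B C := by
  have hA' : A'.Countable := (hA.union hC).mono h2
  have h3 : SI X A B (A ∪ C) := (si_add_base hA hB hC).2 h
  have e : A ∪ C = A' ∪ (A ∪ C) := (Set.union_eq_self_of_subset_left h2).symm
  rw [e] at h3
  have h4 := ((si_union hA hB hA' (hA.union hC)).1 h3).2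
  rw [Set.union_eq_self_of_subset_left h1] at h4
  exact si_right hA' hB (hA.union hC) Set.subset_union_right h4

/-- increase of the base on the left side, inside `A ∪ B` -/
theorem si_upl {A' : Set V} (hA : A.Countable) (hB : B.Countable) (hC : C.Countable)
    (h : SI X A B C) (h1 : A ⊆ A') (h2 : A' ⊆ A ∪ B) : SI X A' B C :=
  si_symm ((hA.union hB).mono h2) hC hB
    (si_up hA hC hB (si_symm hA hB hC h) h1 h2)

theorem si_trans (hA : A.Countable) (hB : B.Countable) (hC : C.Countable) (hD : D.Countable)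
    (h1 : SI X A B C) (h2 : SI X (A ∪ C) B D) : SI X A B (C ∪ D) :=
  (si_union hA hB hC hD).2 ⟨h1, h2⟩

/-- transitivity: `A ⊆ A'`, `B` independent from `A'` over `A` and from `D` over `A'` -/
theorem si_trans' {A' : Set V} (hB : B.Countable) (hA' : A'.Countable)
    (hD : D.Countable) (h : A ⊆ A') (h1 : SI X A B A') (h2 : SI X A' B D) : SI X A B (A' ∪ D) := by
  have hA : A.Countable := hA'.mono h
  refine si_trans hA hB hA' hD h1 ?_
  rwa [Set.union_eq_self_of_subset_left h]

/-- the same on the left -/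
theorem si_transl (hA : A.Countable) (hB : B.Countable) (hC : C.Countable) (hD : D.Countable)
    (h1 : SI X A B C) (h2 : SI X (A ∪ B) D C) : SI X A (B ∪ D) C :=
  (si_unionl hA hB hC hD).2 ⟨h1, h2⟩

theorem si_fx (hA : A.Countable) (hB : B.Countable) (hC : C.Countable) {g : G}
    (hg : g ∈ Fx G A) : SI X A (tr g B) (tr g C) ↔ SI X A B C := by
  have := si_tr (X := X) hA hB hC g
  rwa [tr_fx hg] at this

/-- moving `B` by an element which fixes `A` and `C` -/
theorem si_fx_left (hA : A.Countable) (hB : B.Countable) (hC : C.Countable) {g : G}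
    (hg : g ∈ Fx G (A ∪ C)) : SI X A (tr g B) C ↔ SI X A B C := by
  have := si_fx (X := X) hA hB hC (fx_union.1 hg).1
  rwa [tr_fx (fx_union.1 hg).2] at this

theorem si_not_self_left (h : ¬ SI X A B C) : ¬ B ⊆ ∅ := by
  intro h1
  exact h (si_left (B := ∅) h1 si_empty_left)

/-! ### stationarity -/

theorem sta_up {ι : Type} [Finite ι] {b : ι → V} (hA : A.Countable) (hC : C.Countable)
    (h : Sta X A b) (h1 : SI X A (Set.range b) C) : Sta X (A ∪ C) b := by
  obtain ⟨D, hD, hb, h2⟩ := h
  refine ⟨D, ov_mono X Set.subset_union_left hD, hb, ?_⟩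
  rwa [(rk_si hA hC).2 h1]

theorem sta_stn {ι : Type} [Finite ι] {b : ι → V} (hA : A.Countable) (h : Sta X A b) :
    Stn X A (Set.range b) := by
  intro C hC g hg h1 h2
  rw [tr_range] at h2
  have h3 : X.rk (A ∪ C) b = X.rk A b := (rk_si hA hC).2 h1
  have h4 : X.rk (A ∪ C) (g • b) = X.rk A b := by
    rw [(rk_si hA hC).2 h2]
    exact (a_rkb V G X ι b).2.2.2.2.2 A (g • b) ⟨g, hg, rfl⟩
  obtain ⟨k, hk, hkb⟩ := a_uni V G X A (A ∪ C) (hA.union hC) Set.subset_union_left ι b b (g • b) h
    (eqv_refl A b) ⟨g, hg, rfl⟩ h3 h4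
  refine ⟨k, hk, ?_⟩
  rintro _ ⟨i, rfl⟩
  exact congrFun hkb i

end Pool.Agent.Helper90.MZ
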