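import Pool.Agent.Helper90.MZ.StmtsT
import Pool.Agent.Helper90.TS.Asm

/-!
# MP_79eb7e_lc: assembly of the full answer from the modules
-/

set_option autoImplicit false

namespace Pool.Agent.Helper90.MZ

open Pool.Agent.Helper90.TS
open FirstOrder Language

theorem full_asm (hCINV : ST_CINV) (h1 : ST_UBOOL) (h2 : ST_UIMG) (h3 : ST_USORT) (h4 : ST_USAT)
    (h5 : ST_UOST) (h6 : ST_USTAB) (h7 : ST_UCODE) (hUU1 : ST_UU1) (hTRC : ST_TRC)
    (hSML : ST_SML) (hUMOD : ST_UMOD) (hUTOP : ST_UTOP) (hUTRIV : ST_UTRIV)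
    (hUMD : ST_UMD) (hFEW : ST_FEW) (hZZ : ST_ZZ) (hBAI : ST_BAI) : ST_FULL := by
  intro L C _ S hM hsm hst hfew Ph hphd hphb hom M hMc Q hQ n p hp
  have hinv : ∀ (g : AutG L C) i, ∀ x ∈ Ph i, g • x ∈ Ph i := by
    intro g i x hx
    have := ((hCINV L C (Fin 1) (∅ : Set C) {y | y 0 ∈ Ph i} (hphd i)).1 g
      (by rw [fx_empty]; trivial) (fun _ => x)).2 hx
    exact this
  let T : Dt L C :=
    { S := S
      hM := hM
      small := hsm
      stable := hst
      Ph := Ph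
      phdef := hphd
      phbd := hphb
      om := hom
      phinv := hinv }
  have hU0 : T.U0 = ⋃ i, Ph i := rfl
  obtain ⟨X, hX⟩ := exists_ctx h1 h2 h3 h4 h5 h6 h7 L C T
  obtain ⟨u1, u2, u3, u4⟩ := hUU1 L C T
  have hQU : Q ⊆ T.U0 := by
    rw [hQ]
    exact Set.inter_subset_right
  obtain ⟨N, hNc, hNQ, c, hcN, hpc⟩ := hp
  rcases hTRC L C T n c with htr | ⟨d, hd1, hd2⟩
  · exact ⟨∅, Set.empty_subset _, Set.finite_empty, hUTRIV L C T Q ∅ hQU n c htr p hpc⟩
  obtain ⟨m1, m2, m3, m4⟩ := hUMOD L C T N hNc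
  set Q0 : Set T.V := {x | (x : C) ∈ Q} with hQ0
  set Q1 : Set T.V := {x | (x : C) ∈ N} with hQ1
  have hQN : ∀ x, x ∈ Q ↔ x ∈ N ∧ x ∈ T.U0 := by
    intro x
    rw [← hNQ]
    rfl
  have hQ01 : Q0 ⊆ Q1 := fun x hx => ((hQN _).1 hx).1
  have hMdl : Mdl X Q1 := hUMD L C T X hX N hNc
  have hgen : ∀ x ∈ Q1, ∃ (m : ℕ) (u : Fin m → T.V), Set.range u ⊆ Q0 ∧
      ∀ g : AutG L C, g • u = u → g • x = x := by
    intro x hx
    obtain ⟨m, u, hu, hux⟩ := m3 (x : C) hx x.2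
    refine ⟨m, fun i => ⟨u i, u1 (hu i).2⟩, ?_, ?_⟩
    · rintro _ ⟨i, rfl⟩
      exact (hQN _).2 (hu i)
    · intro g hg
      apply Subtype.ext
      refine hux g ?_
      ext i
      exact congrArg Subtype.val (congrFun hg i)
  have hcl : ∀ (m : ℕ) (u : Fin m → T.V) (x : T.V), Set.range u ⊆ Q0 →
      (∀ g : AutG L C, g • u = u → g • x = x) → x ∈ Q1 := by
    intro m u x hu hx
    refine m2 m (fun i => (u i : C)) (x : C) ?_ ?_
    · intro i
      exact hQ01 (hu ⟨i, rfl⟩)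
    · refine (Set.finite_singleton (x : C)).subset ?_
      rintro _ ⟨g, hg, rfl⟩
      have : g • u = u := by
        ext i
        exact congrFun hg i
      exact congrArg Subtype.val (hx g this)
  have hrd : Set.range d ⊆ Q1 := by
    rintro _ ⟨i, rfl⟩
    refine m2 n c (d i : C) hcN ?_
    refine (Set.finite_singleton (d i : C)).subset ?_
    rintro _ ⟨g, hg, rfl⟩
    exact congrArg Subtype.val (hd1 g hg i)
  -- automorphisms preserving `Q` preserve `dcl Q`
  have hQtr : ∀ g : AutG L C, tr g Q = Q → tr g Q1 = Q1 := by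
    have key : ∀ g : AutG L C, tr g Q = Q → tr g Q1 ⊆ Q1 := by
      rintro g hg _ ⟨x, hx, rfl⟩
      obtain ⟨m, u, hu, hux⟩ := hgen x hx
      refine hcl m (g • u) (g • x) ?_ ?_
      · rintro _ ⟨i, rfl⟩
        have : g • (u i : C) ∈ tr g Q := ⟨_, hu ⟨i, rfl⟩, rfl⟩
        rw [hg] at this
        exact this
      · intro k hk
        have h1 : (g⁻¹ * k * g) • u = u := by
          rw [mul_smul, mul_smul, hk]
          simp
        have h2 := hux _ h1
        rw [mul_smul, mul_smul, inv_smul_eq_iff] at h2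
        exact h2
    intro g hg
    refine le_antisymm (key g hg) ?_
    have hg' : tr g⁻¹ Q = Q := by
      ext x
      rw [mem_tr, inv_inv]
      constructor
      · intro h
        rw [← hg] at h
        rw [mem_tr] at h
        simpa using h
      · intro h
        rw [← hg]
        exact ⟨x, h, rfl⟩
    intro x hx
    rw [mem_tr]
    exact key g⁻¹ hg' ⟨x, hx, rfl⟩
  have hQtr' : ∀ g : AutG L C, tr g Q1 = Q1 → tr g Q = Q := by
    have key : ∀ g : AutG L C, tr g Q1 = Q1 → tr g Q ⊆ Q := by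
      rintro g hg _ ⟨x, hx, rfl⟩
      rw [hQN]
      refine ⟨?_, ?_⟩
      · have hx1 : (⟨x, u1 (hQU hx)⟩ : T.V) ∈ Q1 := ((hQN _).1 hx).1
        have : g • (⟨x, u1 (hQU hx)⟩ : T.V) ∈ tr g Q1 := ⟨_, hx1, rfl⟩
        rw [hg] at this
        exact this
      · obtain ⟨i, hi⟩ := Set.mem_iUnion.1 (hQU hx)
        exact Set.mem_iUnion.2 ⟨i, hinv g i _ hi⟩
    intro g hg
    refine le_antisymm (key g hg) ?_
    have hg' : tr g⁻¹ Q1 = Q1 := by
      ext x
      rw [mem_tr, inv_inv]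
      constructor
      · intro h
        rw [← hg] at h
        rw [mem_tr] at h
        simpa using h
      · intro h
        rw [← hg]
        exact ⟨x, h, rfl⟩
    intro x hx
    rw [mem_tr]
    exact key g⁻¹ hg' ⟨x, hx, rfl⟩
  -- Theorem Z
  obtain ⟨a0, ha0Q, ha0f, ha0⟩ := hZZ T.V (AutG L C) X Q1 d (hFEW L C T X hX hfew) hMdl hrd
    (hSML L C T n c d hd1)
  -- a finite subset of `Q` over which `a0` is definable
  have hreal : ∃ A : Set T.V, A.Finite ∧ A ⊆ Q0 ∧ Fx (AutG L C) A ≤ Fx (AutG L C) a0 := by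
    clear ha0
    induction a0, ha0f using Set.Finite.induction_on with
    | empty =>
      exact ⟨∅, Set.finite_empty, Set.empty_subset _, le_rfl⟩
    | @insert x s hxs hs ih =>
      obtain ⟨A, hA1, hA2, hA3⟩ := ih (fun y hy => ha0Q (Or.inr hy))
      obtain ⟨m, u, hu, hux⟩ := hgen x (ha0Q (Or.inl rfl))
      refine ⟨A ∪ Set.range u, hA1.union (Set.finite_range u), Set.union_subset hA2 hu, ?_⟩
      intro g hg y hy
      rcases hy with rfl | hy
      · refine hux g ?_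
        ext i
        exact congrArg Subtype.val (hg (u i) (Or.inr ⟨i, rfl⟩))
      · exact hA3 (fun z hz => hg z (Or.inl hz)) y hy
  obtain ⟨A, hAfin, hAQ, hAfx⟩ := hreal
  set a : Set C := (fun x : T.V => (x : C)) '' A with ha
  have haQ : a ⊆ Q := by
    rintro _ ⟨x, hx, rfl⟩
    exact hAQ hx
  have hafin : a.Finite := hAfin.image _
  have hfxA : ∀ g : AutG L C, g ∈ Fx (AutG L C) A ↔ ∀ x ∈ a, g • x = x := by
    intro g
    constructor
    · rintro hg _ ⟨x, hx, rfl⟩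
      exact congrArg Subtype.val (hg x hx)
    · intro hg x hx
      exact Subtype.ext (hg _ ⟨x, hx, rfl⟩)
  refine ⟨a, haQ, hafin, ?_⟩
  refine hUTOP L C T Q a N hNc hNQ haQ hafin n c d hcN hd1 hd2 ?_ p hpc
  intro d' hd'
  obtain ⟨g, hg1, hg2, hg3⟩ := hBAI T.V (AutG L C) X Q1 a0 A d d' hMdl.1 ha0Q ha0f hrd ha0
    (hAQ.trans hQ01) hAfin hAfx (by
      intro m
      obtain ⟨g, ⟨hg1, hg2⟩, hg3⟩ := hd' m
      exact ⟨g, (hfxA g).2 hg2, hQtr g hg1, hg3⟩)
  exact ⟨g, ⟨hQtr' g hg2, (hfxA g).1 hg1⟩, hg3⟩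

end Pool.Agent.Helper90.MZ
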