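import Pool.Agent.Helper67.MZ.CHN

set_option autoImplicit false

namespace Pool.Agent.Helper90.MZ

open Pool.Agent.Helper90.TS

theorem st_CHN (hSRX : ST_SRX) (hUSEV : ST_USEV) (hPRIM : ST_PRIM) : ST_CHN :=
  fun V G _ _ _ X M N u hM hN hMN hu hf => chn_main hSRX hUSEV hPRIM V G X M N u hM hN hMN hu hf

end Pool.Agent.Helper90.MZ
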