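import Pool.Agent.Helper90.MZ.StmtsC

set_option autoImplicit false

namespace Pool.Agent.Helper90.MZ

open Pool.Agent.Helper90.TS

theorem ct_finite_sub {V : Type} {N : ℕ → Set V} (hN : ∀ n, N n ⊆ N (n + 1)) {F : Set V}
    (hF : F.Finite) (h : F ⊆ ⋃ n, N n) : ∃ n, F ⊆ N n := by
  have hmono : Monotone N := monotone_nat_of_le_succ hN
  induction F, hF using Set.Finite.induction_on with
  | empty => exact ⟨0, Set.empty_subset _⟩
  | @insert x s _ _ ih =>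
    obtain ⟨n, hn⟩ := ih (fun y hy => h (Or.inr hy))
    obtain ⟨m, hm⟩ := Set.mem_iUnion.1 (h (Or.inl rfl))
    refine ⟨max n m, ?_⟩
    intro y hy
    rcases hy with rfl | hy
    · exact hmono (le_max_right _ _) hm
    · exact hmono (le_max_left _ _) (hn hy)

theorem st_CT (hCTS : ST_CTS) (hOPN : ST_OPN) (hPRIM : ST_PRIM) (hMDLB : ST_MDLB)
    (hRLB : ST_RLB) : ST_CT := by
  intro V G _ _ X κ _ q h A0 hA0 hq
  -- the first model
  obtain ⟨_, md2, _, _, _, md6, _⟩ := hMDLB V G X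
  obtain ⟨N', hN', hA0N', _⟩ := md2 A0 A0 A0 (le_refl _) hA0 hA0
    (si_self_right (le_refl _))
  obtain ⟨N0, hN0N', hN0⟩ := hPRIM V G X A0 N' hN' hA0N'
  have hOm0 : ∀ i, Om X (q i) (h i) N0 := by
    intro i y hy hr
    obtain ⟨hsr, hqh, hhA, hni, hup⟩ := hq i
    have h1 := hup y hr
    have hhc : (h i).Countable := hA0.mono hhA
    have h2 : Isl X A0 y := hN0.2.2 1 y hy
    refine hni y hr (hOPN V G X (h i) A0 hhA hA0 (Fin 1) y h2 ?_)
    exact si_up hsr.cnt (Set.countable_range y) hA0 h1.2 hqh (hhA.trans Set.subset_union_right)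
  -- the chain
  let P : Set V → Prop := fun N => Mdl X N ∧ A0 ⊆ N ∧ ∀ i, Om X (q i) (h i) N
  have hstep : ∀ N : {N // P N}, ∃ N' : {N // P N}, N.1 ⊆ N'.1 ∧
      ∀ r : Ty V, SR X r → r.A.Finite → r.A ⊆ N.1 → (∀ i, ¬ NO X r (q i)) →
        ∃ y : Fin 1 → V, Set.range y ⊆ N'.1 ∧ Rl X r N.1 y := by
    rintro ⟨N, hN1, hN2, hN3⟩
    obtain ⟨N', h1, h2, h3, h4⟩ := hCTS V G X κ q h N hN1
      (fun i => ⟨(hq i).1, (hq i).2.1, (hq i).2.2.1.trans hN2, hN3 i⟩)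
    exact ⟨⟨N', h1, hN2.trans h2, h3⟩, h2, h4⟩
  choose f hf1 hf2 using hstep
  let K : ℕ → {N // P N} := fun n => Nat.rec ⟨N0, hN0.1, hN0.2.1, hOm0⟩ (fun _ N => f N) n
  have hK : ∀ n, (K n).1 ⊆ (K (n + 1)).1 := fun n => hf1 (K n)
  refine ⟨⋃ n, (K n).1, md6 _ (fun n => (K n).2.1) hK, ?_, ?_, ?_⟩
  · exact (K 0).2.2.1.trans (Set.subset_iUnion (fun n => (K n).1) 0)
  · intro i y hy hr
    obtain ⟨n, hn⟩ := ct_finite_sub hK (Set.finite_range y) hy
    exact (K n).2.2.2 i y hn hr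
  · rintro r hr hrf hrN hno ⟨F, hF, hFN, hom⟩
    obtain ⟨n, hn⟩ := ct_finite_sub hK (hrf.union hF) (Set.union_subset hrN hFN)
    obtain ⟨y, hy1, hy2⟩ := hf2 (K n) r hr hrf (Set.subset_union_left.trans hn) hno
    have hy3 : Rl X r F y := (hRLB V G X r hr (K n).1 (K n).2.1.1).2.2.1 y hy2 F
      ((Set.subset_union_right.trans hn).trans Set.subset_union_right)
    exact hom y (hy1.trans (Set.subset_iUnion (fun n => (K n).1) (n + 1))) hy3

end Pool.Agent.Helper90.MZ
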