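import Pool.Agent.Helper90.MZ.StmtsC

/-!
# MP_79eb7e_lc, full answer: the ENI dimensional order property fails (NDP)
-/

set_option autoImplicit false

namespace Pool.Agent.Helper90.MZ

open Pool.Agent.Helper90.TS

variable {V G : Type} [Group G] [MulAction G V] {X : Ctx V G}

theorem ndp_tr_congr {g h : G} {A : Set V} (H : ∀ x ∈ A, g • x = h • x) : tr g A = tr h A := by
  ext y
  constructor
  · rintro ⟨x, hx, rfl⟩
    exact ⟨x, hx, (H x hx).symm⟩
  · rintro ⟨x, hx, rfl⟩
    exact ⟨x, hx, H x hx⟩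

/-- weight of an independent family -/
theorem ndp_weight (hWBB : ST_WBB) {b : Set V} (hb : b.Countable) {n w : ℕ} (S : Fin n → Set V)
    (hS : ∀ i, (S i).Countable) (hw : ∀ i, WB X b (S i) w)
    (hI : ∀ i, SI X b (S i) (⋃ j ∈ {j | j < i}, S j)) :
    WB X b (⋃ i, S i) (n * w) := by
  obtain ⟨w1, w2, w3, w4, w5⟩ := hWBB V G X
  have hc : ∀ T : Set (Fin n), (⋃ i ∈ T, S i).Countable := fun T =>
    Set.Countable.biUnion (Set.to_countable T) fun i _ => hS i
  have key : ∀ m, m ≤ n → WB X b (⋃ i ∈ {i : Fin n | (i : ℕ) < m}, S i) (m * w) := by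
    intro m
    induction m with
    | zero =>
      intro _ Y _ _ k S' _ _
      refine ⟨∅, by simp, ?_⟩
      have e : (⋃ i ∈ {i : Fin n | (i : ℕ) < 0}, S i) = ∅ := by
        simp
      rw [e]
      exact si_empty_right
    | succ m ih =>
      intro hm
      have h1 := ih (by omega)
      have hmn : m < n := by omega
      have e : (⋃ i ∈ {i : Fin n | (i : ℕ) < m + 1}, S i) =
          (⋃ i ∈ {i : Fin n | (i : ℕ) < m}, S i) ∪ S ⟨m, hmn⟩ := by
        ext v
        simp only [Set.mem_iUnion, Set.mem_union]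
        constructor
        · rintro ⟨i, hi, hv⟩
          have hi' : (i : ℕ) < m + 1 := hi
          rcases Nat.lt_or_ge (i : ℕ) m with h | h
          · exact Or.inl ⟨i, h, hv⟩
          · have : i = ⟨m, hmn⟩ := Fin.ext (by simp only; omega)
            rw [this] at hv
            exact Or.inr hv
        · rintro (⟨i, hi, hv⟩ | hv)
          · have hi' : (i : ℕ) < m := hi
            exact ⟨i, Nat.lt_succ_of_lt hi', hv⟩
          · exact ⟨⟨m, hmn⟩, Nat.lt_succ_self m, hv⟩
      rw [e, Nat.succ_mul]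
      refine w3 b _ _ (m * w) w hb (hc _) (hS _) h1 ?_
      exact w2 b _ _ w hb (hS _) (hc _) (hI ⟨m, hmn⟩) (hw _)
  have h4 := key n le_rfl
  have e : (⋃ i ∈ {i : Fin n | (i : ℕ) < n}, S i) = ⋃ i, S i := by
    ext v
    simp
  rwa [e] at h4

/-- orthogonality over a model -/
theorem ndp_orth (hSRDN : ST_SRDN) (hDOM : ST_DOM) {K Z Z' N1 N2 : Set V} {s q : Ty V}
    (hK : Mdl X K) (hZ : Z.Countable) (hZ' : Z'.Countable) (h1 : Atm X (K ∪ Z) N1)
    (h2 : Atm X (K ∪ Z') N2) (hsi : SI X K Z Z') (hs : SR X s) (hq : SR X q) (hs1 : s.A ⊆ N1)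
    (hq2 : q.A ⊆ N2) (hno : NO X s q) : Sp X K s := by
  have hKc : K.Countable := hK.1
  have a1 := (hDOM V G X K Z Z' N1 hK hZ hZ' h1 (si_symm hKc hZ hZ' hsi)).1
  have a2 := (hDOM V G X K Z' N1 N2 hK hZ' h1.1.1 h2 (si_symm hKc hZ' h1.1.1 a1)).1
  exact hSRDN V G X K N1 N2 s q hK h1.1 h2.1 (Set.subset_union_left.trans h1.2.1)
    (Set.subset_union_left.trans h2.2.1) a2 hs hs1 hq hq2 hno

theorem st_NDP (hNDPG : ST_NDPG) (hFIN : ST_FIN) (hPRB : ST_PRB) (hSRDN : ST_SRDN)
    (hFDOM : ST_FDOM) (hDOM : ST_DOM) (hPRX : ST_PRX) (hWT : ST_WT) (hWBB : ST_WBB)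
    (hINVA : ST_INVA) (hINVB : ST_INVB) (hSUPU : ST_SUPU) (hENIU : ST_ENIU) (hNOEQ : ST_NOEQ)
    (hATMB : ST_ATMB) : ST_NDP := by
  intro V G _ _ X M Mu Mv N u v q0 hfew hM huf hvf hMuA hMvA huv hNA hq0 hNq0
  by_contra hcon
  obtain ⟨hMu0, hMv0⟩ := not_or.1 hcon
  have hMc : M.Countable := hM.1
  have huc : u.Countable := huf.countable
  have hvc : v.Countable := hvf.countable
  have hMuc : Mu.Countable := hMuA.1.1
  have hMvc : Mv.Countable := hMvA.1.1
  have hMMu : M ⊆ Mu := Set.subset_union_left.trans hMuA.2.1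
  have hMMv : M ⊆ Mv := Set.subset_union_left.trans hMvA.2.1
  have huMu : u ⊆ Mu := Set.subset_union_right.trans hMuA.2.1
  have hvMv : v ⊆ Mv := Set.subset_union_right.trans hMvA.2.1
  have hvu : SI X M v u := si_symm hMc huc hvc huv
  have hvMu : SI X M v Mu := (hDOM V G X M u v Mu hM huc hvc hMuA hvu).1
  have hMuv : SI X M Mu v := si_symm hMc hvc hMuc hvMu
  have hMuMv : SI X M Mu Mv := (hDOM V G X M v Mu Mv hM hvc hMuc hMvA hMuv).1
  have hN1 : Atm X (Mu ∪ v) N := by
    have h := hPRX V G X M v Mu Mv N hM hvc hMuc hMvA hMuv (by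
      rw [Set.union_comm]
      exact hNA)
    have e : M ∪ v ∪ Mu = Mu ∪ v := by
      rw [Set.union_comm M v, Set.union_assoc, Set.union_eq_self_of_subset_left hMMu,
        Set.union_comm]
    rwa [e] at h
  have hN2 : Atm X (M ∪ (u ∪ v)) N := by
    have h := hPRX V G X M u v Mu N hM huc hvc hMuA hvu hN1
    rwa [Set.union_assoc] at h
  -- the ENI type with finite base in `N`
  obtain ⟨su1, _, su3, _, _, su6, _⟩ := hSUPU V G X
  obtain ⟨no1, no2, no3⟩ := hNOEQ V G X
  obtain ⟨q, hqSR, hqN, hqf, hqq0, hq0q⟩ := su6 N q0 hq0.1 hNq0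
  have hq : ENI X q := (hENIU V G X q0).2.2.2.1 hq0 q hqSR hqf hq0q
  have hMu : ¬ Sp X Mu q := fun h => hMu0 (su3 Mu q q0 hqSR hq0.1 hqq0 h)
  have hMv : ¬ Sp X Mv q := fun h => hMv0 (su3 Mv q q0 hqSR hq0.1 hqq0 h)
  have hfin' : Finite q.A := hqf
  obtain ⟨m, ⟨ev⟩⟩ := Finite.exists_equiv_fin q.A
  set f : Fin m → V := fun i => ((ev.symm i : q.A) : V) with hfdef
  have hf : Set.range f = q.A := by
    ext x
    constructor
    · rintro ⟨i, rfl⟩
      exact (ev.symm i).2
    · intro hx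
      exact ⟨ev ⟨x, hx⟩, by simp [hfdef]⟩
  have hfI : Isl X (M ∪ (u ∪ v)) f := hN2.2.2 m f (by rw [hf]; exact hqN)
  have huvf : (u ∪ v).Finite := huf.union hvf
  have huvc : (u ∪ v).Countable := huvf.countable
  obtain ⟨b, hbM, hbf, hb⟩ := hFDOM V G X M (u ∪ v) hM huvf (Fin m) f hfI
  obtain ⟨hdom, hbsi⟩ := hb b subset_rfl hbM
  have hbc : b.Countable := hbf.countable
  obtain ⟨K, hK⟩ := hFIN V G X b hfew hbf
  obtain ⟨ku, hku⟩ := hWT V G X b u hbc huf
  obtain ⟨kv, hkv⟩ := hWT V G X b v hbc hvf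
  obtain ⟨wb1, _⟩ := hWBB V G X
  have hku' := wb1 b u ku (ku + kv) (Nat.le_add_right _ _) hku
  have hkv' := wb1 b v kv (ku + kv) (Nat.le_add_left _ _) hkv
  set w : ℕ := ku + kv with hw
  set n : ℕ := 2 * (K * w) + 1 with hn
  obtain ⟨α, β, σ, hαβ, hσ, hσu, hσv, hI⟩ := hNDPG V G X M Mu Mv n hM hMMu hMMv hMuc hMvc hMuMv
  have hσM : ∀ i j, tr (σ i j) M = M := fun i j => tr_fx (hσ i j)
  have hσb : ∀ i j, tr (σ i j) b = b := fun i j => tr_fx (fx_anti hbM (hσ i j))
  have hσMu : ∀ i j, tr (σ i j) Mu = tr (α i) Mu := fun i j => ndp_tr_congr (hσu i j)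
  have hσMv : ∀ i j, tr (σ i j) Mv = tr (β j) Mv := fun i j => ndp_tr_congr (hσv i j)
  have hMdu : ∀ i, Mdl X (tr (α i) Mu) := fun i =>
    ((hATMB V G X (M ∪ u) Mu).2.2.1 (α i) hMuA).1
  have hMdv : ∀ j, Mdl X (tr (β j) Mv) := fun j =>
    ((hATMB V G X (M ∪ v) Mv).2.2.1 (β j) hMvA).1
  have hMαM : ∀ i, M ⊆ tr (α i) Mu := by
    intro i
    have h := tr_mono (α i) hMMu
    rwa [tr_fx (hαβ i).1] at h
  have hMβM : ∀ j, M ⊆ tr (β j) Mv := by
    intro j
    have h := tr_mono (β j) hMMv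
    rwa [tr_fx (hαβ j).2] at h
  have hNij : ∀ i j, Atm X (tr (α i) Mu ∪ tr (β j) Mv) (tr (σ i j) N) := by
    intro i j
    have h := (hATMB V G X (Mu ∪ Mv) N).2.2.1 (σ i j) hNA
    rwa [tr_union, hσMu, hσMv] at h
  let Q : Fin n → Fin n → Ty V := fun i j => mv (σ i j) q
  have hQSR : ∀ i j, SR X (Q i j) := fun i j => (hINVA V G X (σ i j)).2.2.1 q hqSR
  have hQA : ∀ i j, (Q i j).A = tr (σ i j) q.A := fun i j => rfl
  have hQN : ∀ i j, (Q i j).A ⊆ tr (σ i j) N := fun i j => tr_mono _ hqN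
  -- the models do not support the types
  have hback : ∀ i j (P : Set V), Sp X (tr (σ i j) P) (Q i j) → Sp X P q := by
    intro i j P h
    have h1 := (hINVA V G X (σ i j)⁻¹).2.2.2.2.1 _ _ h
    rwa [(hINVA V G X (σ i j)).1 q, tr_inv_tr] at h1
  have hsu : ∀ i j, ¬ Sp X (tr (α i) Mu) (Q i j) := by
    intro i j h
    rw [← hσMu i j] at h
    exact hMu (hback i j Mu h)
  have hsv : ∀ i j, ¬ Sp X (tr (β j) Mv) (Q i j) := by
    intro i j h
    rw [← hσMv i j] at h
    exact hMv (hback i j Mv h)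
  have hsM : ∀ i j, ¬ Sp X M (Q i j) := fun i j h => hsu i j (su1 M _ _ (hMαM i) h)
  have hcu : ∀ i, (tr (α i) Mu).Countable := fun i => tr_countable _ hMuc
  have hcv : ∀ j, (tr (β j) Mv).Countable := fun j => tr_countable _ hMvc
  -- pairwise orthogonality
  have hA : ∀ i j k l, (i, j) ≠ (k, l) → ¬ NO X (Q i j) (Q k l) := by
    intro i j k l hne hno
    by_cases hik : i = k
    · subst hik
      have hjl : j ≠ l := fun h => hne (by rw [h])
      have h1 := hI {Sum.inl i, Sum.inr j} {Sum.inr l} (by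
        rw [Set.disjoint_singleton_right]
        rintro (h | h)
        · exact absurd h (by simp)
        · exact hjl (Sum.inr.inj h).symm)
      have h2 : SI X M (tr (α i) Mu ∪ tr (β j) Mv) (tr (β l) Mv) := by
        simpa [Set.biUnion_insert] using h1
      have h3 := ((si_unionl hMc (hcu i) (hcv l) (hcv j)).1 h2).2
      rw [Set.union_eq_self_of_subset_left (hMαM i)] at h3
      exact hsu i j (ndp_orth hSRDN hDOM (hMdu i) (hcv j) (hcv l) (hNij i j) (hNij i l) h3
        (hQSR i j) (hQSR i l) (hQN i j) (hQN i l) hno)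
    · by_cases hjl : j = l
      · subst hjl
        have h1 := hI {Sum.inr j, Sum.inl i} {Sum.inl k} (by
          rw [Set.disjoint_singleton_right]
          rintro (h | h)
          · exact absurd h (by simp)
          · exact hik (Sum.inl.inj h).symm)
        have h2 : SI X M (tr (β j) Mv ∪ tr (α i) Mu) (tr (α k) Mu) := by
          simpa [Set.biUnion_insert] using h1
        have h3 := ((si_unionl hMc (hcv j) (hcu k) (hcu i)).1 h2).2
        rw [Set.union_eq_self_of_subset_left (hMβM j)] at h3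
        have e1 := hNij i j
        have e2 := hNij k j
        rw [Set.union_comm] at e1 e2
        exact hsv i j (ndp_orth hSRDN hDOM (hMdv j) (hcu i) (hcu k) e1 e2 h3
          (hQSR i j) (hQSR k j) (hQN i j) (hQN k j) hno)
      · have h1 := hI {Sum.inl i, Sum.inr j} {Sum.inl k, Sum.inr l} (by
          rw [Set.disjoint_iff_forall_ne]
          rintro x (rfl | rfl) y (rfl | rfl)
          · exact fun h => hik (Sum.inl.inj h)
          · exact Sum.inl_ne_inr
          · exact Sum.inr_ne_inl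
          · exact fun h => hjl (Sum.inr.inj h))
        have h2 : SI X M (tr (α i) Mu ∪ tr (β j) Mv) (tr (α k) Mu ∪ tr (β l) Mv) := by
          simpa [Set.biUnion_insert] using h1
        have e1 := hNij i j
        have e2 := hNij k l
        have e3 : M ∪ (tr (α i) Mu ∪ tr (β j) Mv) = tr (α i) Mu ∪ tr (β j) Mv :=
          Set.union_eq_self_of_subset_left ((hMαM i).trans Set.subset_union_left)
        have e4 : M ∪ (tr (α k) Mu ∪ tr (β l) Mv) = tr (α k) Mu ∪ tr (β l) Mv :=
          Set.union_eq_self_of_subset_left ((hMαM k).trans Set.subset_union_left)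
        rw [← e3] at e1
        rw [← e4] at e2
        exact hsM i j (ndp_orth hSRDN hDOM hM ((hcu i).union (hcv j)) ((hcu k).union (hcv l))
          e1 e2 h2 (hQSR i j) (hQSR k l) (hQN i j) (hQN k l) hno)
  have hB : ∀ i j, ¬ Sup X b (Q i j) := fun i j h => hsM i j (h M hM hbM)
  -- the set `y`
  let T : Fin (n + n) → Set V := fun t =>
    Sum.elim (fun i => tr (α i) u) (fun j => tr (β j) v) (finSumFinEquiv.symm t)
  let T' : Fin (n + n) → Set V := fun t =>
    Sum.elim (fun i => tr (α i) Mu) (fun j => tr (β j) Mv) (finSumFinEquiv.symm t)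
  have hTT' : ∀ t, T t ⊆ T' t := by
    intro t
    rcases h : finSumFinEquiv.symm t with i | j
    · simp only [T, T', h, Sum.elim_inl]
      exact tr_mono _ huMu
    · simp only [T, T', h, Sum.elim_inr]
      exact tr_mono _ hvMv
  have hTc : ∀ t, (T t).Countable := by
    intro t
    rcases h : finSumFinEquiv.symm t with i | j
    · simp only [T, h, Sum.elim_inl]
      exact tr_countable _ huc
    · simp only [T, h, Sum.elim_inr]
      exact tr_countable _ hvc
  have hT'c : ∀ t, (T' t).Countable := by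
    intro t
    rcases h : finSumFinEquiv.symm t with i | j
    · simp only [T', h, Sum.elim_inl]
      exact hcu i
    · simp only [T', h, Sum.elim_inr]
      exact hcv j
  have hTw : ∀ t, WB X b (T t) w := by
    intro t
    rcases h : finSumFinEquiv.symm t with i | j
    · simp only [T, h, Sum.elim_inl]
      have := (hINVB V G X (α i)).1 b u w hbc huc hku'
      rwa [tr_fx (fx_anti hbM (hαβ i).1)] at this
    · simp only [T, h, Sum.elim_inr]
      have := (hINVB V G X (β j)).1 b v w hbc hvc hkv'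
      rwa [tr_fx (fx_anti hbM (hαβ j).2)] at this
  have hTM : ∀ t, SI X b (T t) M := by
    intro t
    rcases h : finSumFinEquiv.symm t with i | j
    · simp only [T, h, Sum.elim_inl]
      have h1 : SI X b u M := si_left (Set.subset_union_left.trans Set.subset_union_left) hbsi
      have h2 := (si_tr (X := X) hbc huc hMc (α i)).2 h1
      rwa [tr_fx (fx_anti hbM (hαβ i).1), tr_fx (hαβ i).1] at h2
    · simp only [T, h, Sum.elim_inr]
      have h1 : SI X b v M := si_left (Set.subset_union_right.trans Set.subset_union_left) hbsi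
      have h2 := (si_tr (X := X) hbc hvc hMc (β j)).2 h1
      rwa [tr_fx (fx_anti hbM (hαβ j).2), tr_fx (hαβ j).2] at h2
  have hbM' : b ∪ M = M := Set.union_eq_self_of_subset_left hbM
  have hTI : ∀ t, SI X b (T t) (⋃ s ∈ {s | s < t}, T s) := by
    intro t
    have h1 := hI {finSumFinEquiv.symm t} (finSumFinEquiv.symm '' {s | s < t}) (by
      rw [Set.disjoint_singleton_left]
      rintro ⟨s, hs, hst⟩
      have : s = t := finSumFinEquiv.symm.injective hst
      rw [this] at hs
      simp at hs)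
    have h2 : SI X M (T' t) (⋃ s ∈ {s | s < t}, T' s) := by
      rw [Set.biUnion_singleton, Set.biUnion_image] at h1
      exact h1
    have hUc : (⋃ s ∈ {s | s < t}, T s).Countable :=
      Set.Countable.biUnion (Set.to_countable _) fun s _ => hTc s
    have hUc' : (⋃ s ∈ {s | s < t}, T' s).Countable :=
      Set.Countable.biUnion (Set.to_countable _) fun s _ => hT'c s
    have h3 : SI X M (T t) (⋃ s ∈ {s | s < t}, T s) := by
      have h4 := si_left (hTT' t) h2
      exact si_right hMc (hTc t) hUc' (Set.iUnion₂_mono fun s _ => hTT' s) h4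
    have h5 : SI X b (T t) (M ∪ ⋃ s ∈ {s | s < t}, T s) :=
      si_trans hbc (hTc t) hMc hUc (hTM t) (by rwa [hbM'])
    exact si_right hbc (hTc t) (hMc.union hUc) Set.subset_union_right h5
  have hW := ndp_weight hWBB hbc T hTc hTw hTI
  set y : Set V := ⋃ t, T t with hy
  have hyc : y.Countable := Set.countable_iUnion hTc
  have hfc : ∀ i j, (Set.range (σ i j • f)).Countable := fun i j => Set.countable_range _
  have hNB : ∀ i j, NB X b y (Q i j) := by
    intro i j
    obtain ⟨_, _, _, _, prb5, _⟩ := hPRB V G X b hbc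
    refine prb5 (Q i j) (Q i j) y (hQSR i j) (hQSR i j) (hQSR i j).cnt hyc (hB i j)
      (no1 _ (hQSR i j)) ?_
    intro Y hY hYy
    have e1 : tr (σ i j) (u ∪ v) = tr (α i) u ∪ tr (β j) v := by
      rw [tr_union, ndp_tr_congr (fun x hx => hσu i j x (huMu hx)),
        ndp_tr_congr (fun x hx => hσv i j x (hvMv hx))]
    have h1 : tr (σ i j) (u ∪ v) ⊆ y := by
      rw [e1]
      refine Set.union_subset ?_ ?_
      · have : tr (α i) u = T (finSumFinEquiv (Sum.inl i)) := by
          simp only [T, Equiv.symm_apply_apply, Sum.elim_inl]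
        rw [this]
        exact Set.subset_iUnion T _
      · have : tr (β j) v = T (finSumFinEquiv (Sum.inr j)) := by
          simp only [T, Equiv.symm_apply_apply, Sum.elim_inr]
        rw [this]
        exact Set.subset_iUnion T _
    have h2 := si_right hbc hY hyc h1 hYy
    have h3 := (hINVB V G X (σ i j)).2.2.1 b (u ∪ v) (Fin m) f hbc huvc hdom
    rw [hσb] at h3
    obtain ⟨D, _, _, h4⟩ := h3
    have h5 := (h4 Y hY h2).1
    rw [hQA, ← hf, tr_range]
    exact si_right hbc hY ((tr_countable _ huvc).union (hfc i j)) Set.subset_union_right h5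
  let C : Fin (n * n) → Ty V := fun t =>
    Q (finProdFinEquiv.symm t).1 (finProdFinEquiv.symm t).2
  have hFam : Fam X b C := by
    refine ⟨fun t => ⟨(hINVA V G X _).2.2.2.2.2.2.2.2.1 q hq, hB _ _⟩, ?_⟩
    intro t t' hne
    refine hA _ _ _ _ ?_
    intro h
    apply hne
    apply finProdFinEquiv.symm.injective
    exact Prod.ext (Prod.ext_iff.1 h).1 (Prod.ext_iff.1 h).2
  have := hK y ((n + n) * w) hyc hW (n * n) C hFam (fun t => hNB _ _)
  have h6 : n * n ≤ n * (2 * (K * w)) := by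
    calc n * n ≤ K * ((n + n) * w) := this
      _ = n * (2 * (K * w)) := by ring
  have h7 : n ≤ 2 * (K * w) := Nat.le_of_mul_le_mul_left h6 (by omega)
  omega

end Pool.Agent.Helper90.MZ
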