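import Pool.Agent.Helper90.MZ.StmtsC

/-!
# MP_79eb7e_lc, full answer: active types are trivial (NT)
-/

set_option autoImplicit false

namespace Pool.Agent.Helper90.MZ

open Pool.Agent.Helper90.TS

variable {V G : Type} [Group G] [MulAction G V] {X : Ctx V G}

/-- weight of an independent family of realizations -/
theorem nt_weight (hWBB : ST_WBB) (hIND : ST_IND) {p : Ty V} (hp : SR X p) {b : Set V}
    (hb : b.Countable) (hpb : p.A ⊆ b) {n : ℕ} (y : Fin n → Fin 1 → V)
    (hy : ∀ i, Rl X p b (y i)) (hI : Ind X b (fun i => Set.range (y i))) :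
    WB X b (⋃ i, Set.range (y i)) n := by
  obtain ⟨w1, w2, w3, w4, w5⟩ := hWBB V G X
  have hpb' : p.A ∪ b = b := Set.union_eq_self_of_subset_left hpb
  have hc : ∀ S : Set (Fin n), (⋃ i ∈ S, Set.range (y i)).Countable := fun S =>
    Set.Countable.biUnion (Set.to_countable S) fun i _ => Set.countable_range (y i)
  have key : ∀ m, m ≤ n → WB X b (⋃ i ∈ {i : Fin n | (i : ℕ) < m}, Set.range (y i)) m := by
    intro m
    induction m with
    | zero =>
      intro _ Y _ _ k S _ _
      refine ⟨∅, le_rfl, ?_⟩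
      have e : (⋃ i ∈ {i : Fin n | (i : ℕ) < 0}, Set.range (y i)) = ∅ := by
        simp
      rw [e]
      exact si_empty_right
    | succ m ih =>
      intro hm
      have h1 := ih (by omega)
      have hmn : m < n := by omega
      have e : (⋃ i ∈ {i : Fin n | (i : ℕ) < m + 1}, Set.range (y i)) =
          (⋃ i ∈ {i : Fin n | (i : ℕ) < m}, Set.range (y i)) ∪ Set.range (y ⟨m, hmn⟩) := by
        ext v
        simp only [Set.mem_iUnion, Set.mem_union]
        constructor
        · rintro ⟨i, hi, hv⟩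
          have hi' : (i : ℕ) < m + 1 := hi
          rcases Nat.lt_or_ge (i : ℕ) m with h | h
          · exact Or.inl ⟨i, h, hv⟩
          · have : i = ⟨m, hmn⟩ := Fin.ext (by simp only; omega)
            rw [this] at hv
            exact Or.inr hv
        · rintro (⟨i, hi, hv⟩ | hv)
          · have hi' : (i : ℕ) < m := hi
            exact ⟨i, Nat.lt_succ_of_lt hi', hv⟩
          · exact ⟨⟨m, hmn⟩, Nat.lt_succ_self m, hv⟩
      rw [e]
      refine w3 b _ _ m 1 hb (hc _) (Set.countable_range _) h1 ?_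
      have h2 : WB X b (Set.range (y ⟨m, hmn⟩)) 1 := by
        have := w4 p b (y ⟨m, hmn⟩) hp hb (hy _)
        rwa [hpb'] at this
      refine w2 b _ _ 1 hb (Set.countable_range _) (hc _) ?_ h2
      have h3 := hI {⟨m, hmn⟩} {i : Fin n | (i : ℕ) < m} (by
        rw [Set.disjoint_singleton_left]
        simp)
      simpa using h3
  have h4 := key n le_rfl
  have e : (⋃ i ∈ {i : Fin n | (i : ℕ) < n}, Set.range (y i)) = ⋃ i, Set.range (y i) := by
    ext v
    simp
  rwa [e] at h4

/-- the combinatorial core -/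
theorem nt_core (hNTG : ST_NTG) (hFIN : ST_FIN) (hPRB : ST_PRB) (hPWA : ST_PWA) (hWBB : ST_WBB)
    (hRLB : ST_RLB) (hNOEQ : ST_NOEQ) (hINVA : ST_INVA) (hINVB : ST_INVB) (hIND : ST_IND)
    (hfew : Few X) {p : Ty V} (hp : SR X p) {b : Set V} (hb : b.Finite) (hpb : p.A ⊆ b)
    (e : Fin 3 → Fin 1 → V) (he : ∀ i, Rl X p b (e i))
    (hpair : ∀ i j, i ≠ j → SI X b (Set.range (e i)) (Set.range (e j)))
    (hdep : ¬ SI X b (Set.range (e 2)) (Set.range (e 0) ∪ Set.range (e 1)))
    {q : Ty V} (hq : ENI X q) (hsup : ¬ Sup X b q) {m : ℕ} (f : Fin m → V)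
    (hf : Set.range f = q.A) (hdom : Dom X b (Set.range (e 2)) f) : False := by
  have hbc : b.Countable := hb.countable
  have hpb' : p.A ∪ b = b := Set.union_eq_self_of_subset_left hpb
  have hrc : ∀ y : Fin 1 → V, (Set.range y).Countable := fun y => Set.countable_range y
  obtain ⟨ino1, ino2, ino3⟩ := hNOEQ V G X
  obtain ⟨_, _, _, prb4, _, _⟩ := hPRB V G X b hbc
  obtain ⟨K, hK⟩ := hFIN V G X b hfew hb
  set k : ℕ := 2 * K + 1 with hk
  obtain ⟨y, τ, hy, hyI, hτ, hτe, hτi⟩ := hNTG V G X b p e (k + k) hp hbc hpb he hpair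
  let I : Fin (k * k) → Fin (k + k) := fun t => Fin.castAdd k (finProdFinEquiv.symm t).1
  let J : Fin (k * k) → Fin (k + k) := fun t => Fin.natAdd k (finProdFinEquiv.symm t).2
  have hIJ : ∀ t, I t < J t := by
    intro t
    rw [Fin.lt_def]
    change ((finProdFinEquiv.symm t).1 : ℕ) < k + ((finProdFinEquiv.symm t).2 : ℕ)
    have := (finProdFinEquiv.symm t).1.2
    omega
  have hinj : ∀ t t', t ≠ t' → (I t, J t) ≠ (I t', J t') := by
    intro t t' hne h
    apply hne
    have h1 : I t = I t' := (Prod.ext_iff.1 h).1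
    have h2 : J t = J t' := (Prod.ext_iff.1 h).2
    have h3 : (finProdFinEquiv.symm t).1 = (finProdFinEquiv.symm t').1 :=
      Fin.castAdd_injective k k h1
    have h4 : (finProdFinEquiv.symm t).2 = (finProdFinEquiv.symm t').2 :=
      Fin.natAdd_injective k k h2
    have h5 : finProdFinEquiv.symm t = finProdFinEquiv.symm t' := Prod.ext h3 h4
    exact finProdFinEquiv.symm.injective h5
  let s : Fin (k * k) → G := fun t => τ (I t) (J t)
  have hs : ∀ t, s t ∈ Fx G b := fun t => hτ _ _
  have htb : ∀ t, tr (s t) b = b := fun t => tr_fx (hs t)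
  let C : Fin (k * k) → Ty V := fun t => mv (s t) q
  have hCA : ∀ t, (C t).A = Set.range (s t • f) := by
    intro t
    change tr (s t) q.A = _
    rw [← hf, tr_range]
  -- domination for the translates
  have hdomt : ∀ t, Dom X b (Set.range (s t • e 2)) (s t • f) := by
    intro t
    have := (hINVB V G X (s t)).2.2.1 b (Set.range (e 2)) (Fin m) f hbc (hrc _) hdom
    rwa [htb t, tr_range] at this
  have hdomt' : ∀ t (Y : Set V), Y.Countable → SI X b Y (Set.range (s t • e 2)) →
      SI X b Y (Set.range (s t • e 2) ∪ Set.range (s t • f)) := by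
    intro t Y hY h
    obtain ⟨D, _, _, h3⟩ := hdomt t
    exact (h3 Y hY h).1
  have hENI : ∀ t, ENI X (C t) := fun t => (hINVA V G X (s t)).2.2.2.2.2.2.2.2.1 q hq
  have hnsup : ∀ t, ¬ Sup X b (C t) := by
    intro t h
    have h1 := (hINVA V G X (s t)⁻¹).2.2.2.2.2.1 b (C t) h
    rw [(hINVA V G X (s t)).1 q, tr_fx (inv_mem (hs t))] at h1
    exact hsup h1
  have hRlt : ∀ t, Rl X p b (s t • e 2) := by
    intro t
    obtain ⟨_, _, _, _, _, r6, _⟩ := hRLB V G X p hp b hbc
    refine r6 (e 2) _ (he 2) ⟨s t, ?_, rfl⟩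
    rw [hpb']
    exact hs t
  have hfin : ∀ t, (C t).A.Finite := fun t => (hENI t).2.1
  have hfc : ∀ t, (Set.range (s t • f)).Countable := fun t => Set.countable_range _
  have hFam : Fam X b C := by
    refine ⟨fun t => ⟨hENI t, hnsup t⟩, ?_⟩
    intro t t' hne hno
    refine prb4 (C t) (C t') (hENI t).1 (hENI t').1 hno (hnsup t) ?_
    rw [hCA, hCA]
    have h1 : SI X b (Set.range (s t' • e 2)) (Set.range (s t • e 2)) :=
      hτi _ _ _ _ (hIJ t') (hIJ t) (hinj t' t hne.symm)
    have h2 := hdomt' t _ (hrc _) h1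
    have hu : (Set.range (s t • e 2) ∪ Set.range (s t • f)).Countable := (hrc _).union (hfc t)
    have h3 := si_symm hbc (hrc _) hu h2
    have h4 := hdomt' t' _ hu h3
    have h5 := si_left (B' := Set.range (s t • f)) Set.subset_union_right h4
    exact si_right hbc (hfc t) ((hrc _).union (hfc t')) Set.subset_union_right h5
  set Y0 : Set V := ⋃ i, Set.range (y i) with hY0
  have hY0c : Y0.Countable := Set.countable_iUnion fun i => hrc _
  have hNB : ∀ t, NB X b Y0 (C t) := by
    intro t q' hq' hq'f hno hsi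
    have hq'c : q'.A.Countable := hq'f.countable
    have h1 := hPWA V G X p b q'.A Y0 (s t • e 2) hp hbc (hRlt t) hq'c hY0c (by
      rw [hpb']
      exact hsi)
    rw [hpb'] at h1
    rcases h1 with h1 | h1
    · have h2 := hdomt' t q'.A hq'c (si_symm hbc (hrc _) hq'c h1)
      have h3 : SI X b q'.A (Set.range (s t • f)) :=
        si_right hbc hq'c ((hrc _).union (hfc t)) Set.subset_union_right h2
      refine prb4 (C t) q' (hENI t).1 hq' (ino2 _ _ hno) (hnsup t) ?_
      rw [hCA]
      exact si_symm hbc hq'c (hfc t) h3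
    · refine hdep ?_
      have h2 : SI X b (Set.range (s t • e 2)) (Set.range (y (I t)) ∪ Set.range (y (J t))) :=
        si_right hbc (hrc _) hY0c (Set.union_subset (Set.subset_iUnion_of_subset _ le_rfl)
          (Set.subset_iUnion_of_subset _ le_rfl)) h1
      obtain ⟨h3, h4⟩ := hτe (I t) (J t) (hIJ t)
      rw [← h3, ← h4, ← tr_range, ← tr_range, ← tr_range, ← tr_union] at h2
      have h5 := (si_fx (X := X) hbc (hrc (e 2)) ((hrc (e 0)).union (hrc (e 1))) (hs t)).1 h2
      exact h5
  have hW := nt_weight hWBB hIND hp hbc hpb y hy hyI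
  have := hK Y0 (k + k) hY0c hW (k * k) C hFam hNB
  rw [hk] at this
  nlinarith

theorem st_NT (hTRI : ST_TRI) (hNTG : ST_NTG) (hACI : ST_ACI) (hFIN : ST_FIN) (hPRB : ST_PRB)
    (hPWA : ST_PWA) (hWBB : ST_WBB) (hFDOM : ST_FDOM) (hMDLB : ST_MDLB) (hPRIM : ST_PRIM)
    (hRLB : ST_RLB) (hSRFIN : ST_SRFIN) (hSUPU : ST_SUPU) (hENIU : ST_ENIU) (hNOEQ : ST_NOEQ)
    (hINVA : ST_INVA) (hINVB : ST_INVB) (hIND : ST_IND) : ST_NT := by
  intro V G _ _ X p hfew hp hact
  refine hTRI V G X p hp ?_
  intro B hB e he hpair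
  by_contra hdep
  have hpc : p.A.Countable := hp.cnt
  set A : Set V := p.A ∪ B with hA
  have hAc : A.Countable := hpc.union hB
  have hrc : ∀ y : Fin 1 → V, (Set.range y).Countable := fun y => Set.countable_range y
  set E : Set V := Set.range (e 2) ∪ (Set.range (e 0) ∪ Set.range (e 1)) with hE
  have hEf : E.Finite := (Set.finite_range _).union ((Set.finite_range _).union
    (Set.finite_range _))
  have hEc : E.Countable := hEf.countable
  have hiE : ∀ i, Set.range (e i) ⊆ E := by
    intro i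
    fin_cases i
    · exact Set.subset_union_left.trans Set.subset_union_right
    · exact Set.subset_union_right.trans Set.subset_union_right
    · exact Set.subset_union_left
  obtain ⟨M, hM, hAM, hMi⟩ := (hMDLB V G X).2.1 A E A subset_rfl hAc hEc
    (si_self_left hAc hEc subset_rfl)
  have hMc : M.Countable := hM.1
  have hAM' : A ∪ M = M := Set.union_eq_self_of_subset_left hAM
  have hpM : p.A ⊆ M := Set.subset_union_left.trans hAM
  have hEM : SI X A E M := si_symm hAc hMc hEc hMi
  have heM : ∀ i, Rl X p M (e i) := by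
    intro i
    obtain ⟨_, _, _, r4, _⟩ := hRLB V G X p hp B hB
    have h1 := r4 (e i) M hMc (he i) (si_left (hiE i) hEM)
    obtain ⟨_, _, r3, _⟩ := hRLB V G X p hp (B ∪ M) (hB.union hMc)
    exact r3 (e i) h1 M (fun x hx => Or.inr (Or.inr hx))
  -- independence over `M`
  have hindM : ∀ S T : Set V, S ⊆ E → T ⊆ E → (SI X A S T ↔ SI X M S T) := by
    intro S T hS hT
    have hSc : S.Countable := hEc.mono hS
    have hTc : T.Countable := hEc.mono hT
    have h1 : SI X A (T ∪ S) M := si_left (Set.union_subset hT hS) hEM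
    have h2 := (si_unionl hAc hTc hMc hSc).1 h1
    constructor
    · intro h
      have h3 : SI X A S (T ∪ M) := si_trans hAc hSc hTc hMc h h2.2
      rw [Set.union_comm] at h3
      have h4 := ((si_union hAc hSc hMc hTc).1 h3).2
      rwa [hAM'] at h4
    · intro h
      have h3 : SI X A S M := si_left hS hEM
      have h4 : SI X A S (M ∪ T) := si_trans hAc hSc hMc hTc h3 (by rwa [hAM'])
      exact si_right hAc hSc (hMc.union hTc) Set.subset_union_right h4
  -- the ENI type
  obtain ⟨N', hN', hMN', _⟩ := (hMDLB V G X).2.1 (M ∪ Set.range (e 2)) ∅ (M ∪ Set.range (e 2))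
    subset_rfl (hMc.union (hrc _)) Set.countable_empty si_empty_right
  obtain ⟨N, _, hN⟩ := hPRIM V G X (M ∪ Set.range (e 2)) N' hN' hMN'
  obtain ⟨q0, hq0, hNq0, hMq0⟩ := (hACI V G X p hp hact).2.2 hfew M N (e 2) hM hpM (heM 2) hN
  obtain ⟨_, _, su3, _, _, su6, _⟩ := hSUPU V G X
  obtain ⟨q, hqSR, hqN, hqf, hqq0, hq0q⟩ := su6 N q0 hq0.1 hNq0
  have hq : ENI X q := (hENIU V G X q0).2.2.2.1 hq0 q hqSR hqf hq0q
  have hMq : ¬ Sp X M q := fun h => hMq0 (su3 M q q0 hqSR hq0.1 hqq0 h)
  have : Finite q.A := hqf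
  obtain ⟨m, ⟨ev⟩⟩ := Finite.exists_equiv_fin q.A
  set f : Fin m → V := fun i => ((ev.symm i : q.A) : V) with hfdef
  have hf : Set.range f = q.A := by
    ext x
    constructor
    · rintro ⟨i, rfl⟩
      exact (ev.symm i).2
    · intro hx
      exact ⟨ev ⟨x, hx⟩, by simp [hfdef]⟩
  have hfI : Isl X (M ∪ Set.range (e 2)) f := hN.2.2 m f (by rw [hf]; exact hqN)
  obtain ⟨b0, hb0M, hb0f, hb0⟩ := hFDOM V G X M (Set.range (e 2)) hM (Set.finite_range _)
    (Fin m) f hfI
  have hE0 : Isl X (M ∪ E) (Fin.elim0 : Fin 0 → V) := by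
    refine ⟨{Fin.elim0}, ov_mono X ?_ (ov_singleton (Fin.elim0 : Fin 0 → V)), rfl, ?_⟩
    · rintro _ ⟨i, rfl⟩
      exact i.elim0
    · intro x hx
      rw [Set.mem_singleton_iff.1 hx]
      exact eqv_refl _ _
  obtain ⟨b1, hb1M, hb1f, hb1⟩ := hFDOM V G X M E hM hEf (Fin 0) Fin.elim0 hE0
  obtain ⟨A0, hA0p, hA0f, hA0⟩ := hSRFIN V G X p hp
  obtain ⟨hp0, _, _, _, hp0R⟩ := hA0 A0 subset_rfl hA0p
  set p0 : Ty V := ⟨A0, p.D, p.z⟩ with hp0def
  set b : Set V := A0 ∪ (b0 ∪ b1) with hb
  have hbf : b.Finite := hA0f.union (hb0f.union hb1f)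
  have hbM : b ⊆ M := Set.union_subset (hA0p.trans hpM) (Set.union_subset hb0M hb1M)
  have hbc : b.Countable := hbf.countable
  have hdom := (hb0 b (Set.subset_union_left.trans Set.subset_union_right) hbM).1
  have hEb : SI X b E M := si_left Set.subset_union_left
    (hb1 b (Set.subset_union_right.trans Set.subset_union_right) hbM).2
  have heb : ∀ i, Rl X p0 b (e i) := by
    intro i
    have h1 := (hp0R M (e i) hMc).1 (heM i)
    obtain ⟨_, _, r3, _⟩ := hRLB V G X p0 hp0 (p.A ∪ M) (hpc.union hMc)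
    exact r3 (e i) h1 b (fun x hx => Or.inr (Or.inr (hbM hx)))
  -- independence over `b`
  have hbM' : b ∪ M = M := Set.union_eq_self_of_subset_left hbM
  have hindb : ∀ S T : Set V, S ⊆ E → T ⊆ E → (SI X b S T ↔ SI X M S T) := by
    intro S T hS hT
    have hSc : S.Countable := hEc.mono hS
    have hTc : T.Countable := hEc.mono hT
    have h1 : SI X b (T ∪ S) M := si_left (Set.union_subset hT hS) hEb
    have h2 := (si_unionl hbc hTc hMc hSc).1 h1
    constructor
    · intro h
      have h3 : SI X b S (T ∪ M) := si_trans hbc hSc hTc hMc h h2.2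
      rw [Set.union_comm] at h3
      have h4 := ((si_union hbc hSc hMc hTc).1 h3).2
      rwa [hbM'] at h4
    · intro h
      have h3 : SI X b S M := si_left hS hEb
      have h4 : SI X b S (M ∪ T) := si_trans hbc hSc hMc hTc h3 (by rwa [hbM'])
      exact si_right hbc hSc (hMc.union hTc) Set.subset_union_right h4
  have h01 : Set.range (e 0) ∪ Set.range (e 1) ⊆ E := Set.subset_union_right
  refine nt_core hNTG hFIN hPRB hPWA hWBB hRLB hNOEQ hINVA hINVB hIND hfew hp0 hbf
    Set.subset_union_left e heb ?_ ?_ hq ?_ f hf hdom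
  · intro i j hij
    exact (hindb _ _ (hiE i) (hiE j)).2 ((hindM _ _ (hiE i) (hiE j)).1 (hpair i j hij))
  · intro h
    exact hdep ((hindM _ _ (hiE 2) h01).2 ((hindb _ _ (hiE 2) h01).1 h))
  · intro h
    exact hMq (h M hM hbM)

end Pool.Agent.Helper90.MZ
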