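import Pool.Agent.Helper90.MZ.StmtsT

set_option autoImplicit false

namespace Pool.Agent.Helper90.MZ

open Pool.Agent.Helper90.TS
open FirstOrder Language

theorem st_UMD : ST_UMD := by
  intro L C _ T X hX N hN
  refine ⟨?_, ?_⟩
  · have : ((fun x : T.V => (x : C)) '' {x : T.V | (x : C) ∈ N}).Countable := hN.mono (by
      rintro _ ⟨x, hx, rfl⟩
      exact hx)
    exact Set.countable_of_injective_of_countable_image
      (f := fun x : T.V => (x : C)) (fun x _ y _ h => Subtype.ext h) this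
  · intro n D hD hne
    obtain ⟨hDf, hinv⟩ := hD
    rw [hX] at hDf
    obtain ⟨h1, B, -, ⟨K, hK⟩, hB3, -⟩ := hDf
    have h2 : (Set.univ : Set C).Definable L (im D) := h1.mono (Set.subset_univ _)
    have h3 : Bdd T.S (im D) := ⟨K, fun x hx i => hK x (hB3 hx) i⟩
    have h4 : Inv (Fx (AutG L C) (N : Set C)) (im D) := by
      rintro g hg x ⟨y, hy, rfl⟩
      have hg' : g ∈ Fx (AutG L C) {x : T.V | (x : C) ∈ N} := by
        intro a ha
        apply Subtype.ext
        exact hg (a : C) ha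
      exact ⟨g • y, hinv g hg' y hy, rfl⟩
    have h5 := a_cinvd L C T.S T.hM (Fin n) (N : Set C) hN (im D) h2 h3 h4
    obtain ⟨y, hy⟩ := hne
    obtain ⟨x, ⟨z, hz, rfl⟩, hxN⟩ := a_ctv L C (Fin n) N _ h5 ⟨up y, y, hy, rfl⟩
    refine ⟨z, hz, ?_⟩
    rintro _ ⟨i, rfl⟩
    exact hxN i

end Pool.Agent.Helper90.MZ
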