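import Pool.Agent.Helper90.MZ.StmtsZ

set_option autoImplicit false

namespace Pool.Agent.Helper90.MZ

open Pool.Agent.Helper90.TS

theorem st_ZL (hRLB : ST_RLB) : ST_ZL := by
  intro V G _ _ X d hsm A p hA hp hpA
  have hAc : A.Countable := hA.countable
  have hdc : (Set.range d).Countable := Set.countable_range d
  obtain ⟨y0, hy0⟩ := (hRLB V G X p hp (A ∪ Set.range d) (hAc.union hdc)).1
  obtain ⟨n, hn⟩ := a_lp V G X d hsm A hA (Fin 1) y0
  refine ⟨n, fun m hm y hy => ?_⟩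
  have hmc : (A ∪ ini d m).Countable := hAc.union ((ini_finite d m).countable)
  obtain ⟨_, r2, r3, _⟩ := hRLB V G X p hp (A ∪ ini d m) hmc
  obtain ⟨_, _, r3', _, _, r6, _⟩ := hRLB V G X p hp (A ∪ Set.range d) (hAc.union hdc)
  have hy0' : Rl X p (A ∪ ini d m) y0 := r3' y0 hy0 _ (by
    refine Set.union_subset (fun x hx => Or.inr (Or.inl hx)) ?_
    exact fun x hx => Or.inr (Or.inr (ini_subset d m hx)))
  have h1 : Eqv G (p.A ∪ (A ∪ ini d m)) y0 y := r2 y0 y hy0' hy
  have h2 : Eqv G (A ∪ ini d n) y0 y := eqv_mono (by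
    refine Set.union_subset (fun x hx => Or.inr (Or.inl hx)) ?_
    exact fun x hx => Or.inr (Or.inr (ini_mono hm hx))) h1
  have h3 := hn y h2
  refine r6 y0 y hy0 ?_
  rw [Set.union_eq_right.2 (hpA.trans Set.subset_union_left)]
  exact h3

end Pool.Agent.Helper90.MZ
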