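import Pool.Agent.Helper10.MZ.FIN
import Pool.Agent.Helper10.MZ.LOB
import Pool.Agent.Helper10.MZ.OFA
import Pool.Agent.Helper10.MZ.SRX
import Pool.Agent.Helper10.MZ.TA
import Pool.Agent.Helper10.MZ.TL
import Pool.Agent.Helper10.MZ.TRI
import Pool.Agent.Helper11.MZ.CTS
import Pool.Agent.Helper18.MZ.LFN
import Pool.Agent.Helper18.MZ.NN
import Pool.Agent.Helper2.MZ.OTB
import Pool.Agent.Helper20.MZ.ACI
import Pool.Agent.Helper24.MZ.ZQA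
import Pool.Agent.Helper25.MZ.TLS
import Pool.Agent.Helper28.MZ.ZCB
import Pool.Agent.Helper3.MZ.ENIU
import Pool.Agent.Helper3.MZ.EXCH
import Pool.Agent.Helper3.MZ.PUNI
import Pool.Agent.Helper32.MZ.LOCI
import Pool.Agent.Helper32.MZ.LOCK
import Pool.Agent.Helper33.MZ.UDC
import Pool.Agent.Helper35.MZ.FEW
import Pool.Agent.Helper4.MZ.CTR
import Pool.Agent.Helper4.MZ.DOM
import Pool.Agent.Helper4.MZ.RLB
import Pool.Agent.Helper4.MZ.SRL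
import Pool.Agent.Helper4.MZ.STN
import Pool.Agent.Helper41.MZ.ATMB
import Pool.Agent.Helper41.MZ.OFN
import Pool.Agent.Helper42.MZ.ORBC
import Pool.Agent.Helper42.MZ.SRFIN
import Pool.Agent.Helper42.MZ.SUPB
import Pool.Agent.Helper42.MZ.SUPO
import Pool.Agent.Helper42.MZ.UA
import Pool.Agent.Helper42.MZ.UAC
import Pool.Agent.Helper45.MZ.SRDC
import Pool.Agent.Helper46.MZ.FWB
import Pool.Agent.Helper46.MZ.PRB
import Pool.Agent.Helper46.MZ.SRDB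
import Pool.Agent.Helper46.MZ.ZX
import Pool.Agent.Helper47.MZ.NFV
import Pool.Agent.Helper47.MZ.ZCH
import Pool.Agent.Helper49.MZ.ZSB
import Pool.Agent.Helper5.MZ.IND
import Pool.Agent.Helper5.MZ.INVA
import Pool.Agent.Helper5.MZ.INVB
import Pool.Agent.Helper5.MZ.NOEQ
import Pool.Agent.Helper5.MZ.OTH
import Pool.Agent.Helper5.MZ.OTT
import Pool.Agent.Helper5.MZ.OTW
import Pool.Agent.Helper5.MZ.SRMIN
import Pool.Agent.Helper5.MZ.SUPU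
import Pool.Agent.Helper51.MZ.PKA
import Pool.Agent.Helper55.MZ.BAI
import Pool.Agent.Helper55.MZ.FO
import Pool.Agent.Helper55.MZ.LOC
import Pool.Agent.Helper55.MZ.SRDN
import Pool.Agent.Helper55.MZ.ZQ
import Pool.Agent.Helper57.MZ.ZA
import Pool.Agent.Helper60.MZ.BLK
import Pool.Agent.Helper60.MZ.ZCA
import Pool.Agent.Helper60.MZ.ZZ
import Pool.Agent.Helper61.MZ.COH
import Pool.Agent.Helper61.MZ.MDLB
import Pool.Agent.Helper61.MZ.NDPG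
import Pool.Agent.Helper61.MZ.RKZ
import Pool.Agent.Helper61.MZ.SEM
import Pool.Agent.Helper61.MZ.UNQ
import Pool.Agent.Helper61.MZ.USEV
import Pool.Agent.Helper67.MZ.ISLB
import Pool.Agent.Helper68.MZ.WBB
import Pool.Agent.Helper7.MZ.OPN
import Pool.Agent.Helper71.MZ.OTS
import Pool.Agent.Helper71.MZ.PWA
import Pool.Agent.Helper72.MZ.SRDA
import Pool.Agent.Helper76.MZ.FDOM
import Pool.Agent.Helper77.MZ.ZDM
import Pool.Agent.Helper79.MZ.NWO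
import Pool.Agent.Helper8.MZ.PRIM
import Pool.Agent.Helper8.MZ.WT
import Pool.Agent.Helper81.MZ.ZBE
import Pool.Agent.Helper82.MZ.DIM
import Pool.Agent.Helper83.MZ.ZC
import Pool.Agent.Helper84.MZ.PK
import Pool.Agent.Helper86.MZ.BAS
import Pool.Agent.Helper86.MZ.BNI
import Pool.Agent.Helper88.MZ.NF
import Pool.Agent.Helper88.MZ.NTG
import Pool.Agent.Helper90.MZ.CHN
import Pool.Agent.Helper90.MZ.CT
import Pool.Agent.Helper90.MZ.ISOE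
import Pool.Agent.Helper90.MZ.NDP
import Pool.Agent.Helper90.MZ.NT
import Pool.Agent.Helper90.MZ.UMD
import Pool.Agent.Helper90.MZ.ZL
import Pool.Agent.Helper93.MZ.ORC
import Pool.Agent.Helper93.MZ.ZCD
import Pool.Agent.Helper95.MZ.ACF
import Pool.Agent.Helper97.MZ.CC
import Pool.Agent.Helper97.MZ.ORT
import Pool.Agent.Helper97.MZ.ZBI
import Pool.Agent.Helper90.MZ.AsmF

/-!
# MP_79eb7e_lc: all modules of the full answer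
-/

set_option autoImplicit false

namespace Pool.Agent.Helper90.MZ

open Pool.Agent.Helper90.TS

theorem m_MDLB : ST_MDLB := st_MDLB
theorem m_COH : ST_COH := st_COH m_MDLB
theorem m_TVL : ST_TVL := st_TVL m_COH
theorem m_ISLB : ST_ISLB := st_ISLB m_MDLB
theorem m_DOM : ST_DOM := st_DOM m_TVL m_ISLB
theorem m_FDOM : ST_FDOM := st_FDOM m_TVL m_DOM m_ISLB m_MDLB
theorem m_INVA : ST_INVA := st_INVA
theorem m_CTR : ST_CTR := st_CTR m_INVA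
theorem m_SEM : ST_SEM := st_SEM m_COH
theorem m_RKZ : ST_RKZ := st_RKZ
theorem m_RLB : ST_RLB := st_RLB m_MDLB m_RKZ
theorem m_SRL : ST_SRL := st_SRL m_SEM m_RLB
theorem m_OPN : ST_OPN := st_OPN
theorem m_USEV : ST_USEV := st_USEV m_OPN m_ISLB
theorem m_ATMB : ST_ATMB := st_ATMB m_ISLB m_MDLB
theorem m_PRIM : ST_PRIM := st_PRIM m_ATMB m_ISLB
theorem m_CTS : ST_CTS := st_CTS m_CTR m_SRL m_USEV m_PRIM m_MDLB m_RLB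
theorem m_CT : ST_CT := st_CT m_CTS m_OPN m_PRIM m_MDLB m_RLB
theorem m_SRM : ST_SRM := st_SRM m_SEM m_RLB
theorem m_NWO : ST_NWO := st_NWO m_SRM m_RLB m_INVA
theorem m_NOEQ : ST_NOEQ := st_NOEQ m_NWO m_USEV m_PRIM m_MDLB m_RLB
theorem m_EXCH : ST_EXCH := st_EXCH m_MDLB m_USEV m_RLB m_PRIM m_NWO m_SRL m_NOEQ m_ATMB
theorem m_OFA : ST_OFA := st_OFA m_NWO m_EXCH m_DOM m_PRIM m_MDLB m_RLB
theorem m_SRDA : ST_SRDA := st_SRDA m_OFA m_MDLB m_RLB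
theorem m_OFN : ST_OFN := st_OFN m_COH m_RLB m_MDLB
theorem m_INVB : ST_INVB := st_INVB
theorem m_SRDB : ST_SRDB := st_SRDB m_OFA m_OFN m_TVL m_COH m_PRIM m_ISLB m_RLB m_INVA m_INVB
theorem m_SRDC : ST_SRDC := st_SRDC m_COH m_DOM m_RKZ m_MDLB
theorem m_SRDN : ST_SRDN := st_SRDN m_SRDA m_SRDB m_SRDC m_OFN m_NOEQ m_INVA m_PRIM m_MDLB m_RLB
theorem m_BC : ST_BC := st_BC m_RLB m_RKZ
theorem m_SRFIN : ST_SRFIN := st_SRFIN m_BC m_INVA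
theorem m_SUPU : ST_SUPU := st_SUPU m_SRFIN m_NOEQ m_MDLB
theorem m_SUPB : ST_SUPB := st_SUPB m_SRDN m_SUPU m_MDLB m_INVA m_NOEQ
theorem m_SRMIN : ST_SRMIN := st_SRMIN m_COH m_RKZ m_MDLB
theorem m_SRX : ST_SRX := st_SRX m_SRMIN m_MDLB
theorem m_CHN : ST_CHN := st_CHN m_SRX m_USEV m_PRIM
theorem m_ORT : ST_ORT :=
  st_ORT m_SUPB m_SRDN m_CHN m_DOM m_TVL m_ATMB m_SRL m_NWO m_USEV m_PRIM m_MDLB m_RLB m_SUPU
    m_NOEQ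
theorem m_IND : ST_IND := st_IND
theorem m_BLK : ST_BLK := st_BLK m_CT m_ORT m_IND m_NOEQ m_INVA m_MDLB
theorem m_FWB : ST_FWB := st_FWB
theorem m_SUPO : ST_SUPO := st_SUPO m_SUPB m_SRDN m_SUPU m_MDLB m_NOEQ
theorem m_PRB : ST_PRB := st_PRB m_NOEQ m_IND m_SUPU m_SUPO
theorem m_PUNI : ST_PUNI := st_PUNI m_ATMB m_ISLB
theorem m_PWA : ST_PWA := st_PWA m_RLB m_IND
theorem m_WBB : ST_WBB := st_WBB m_PWA m_IND m_RLB
theorem m_WT : ST_WT := st_WT m_WBB m_CHN m_DOM m_PRIM m_MDLB m_IND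
theorem m_BNI : ST_BNI := st_BNI m_MDLB m_PRIM m_USEV m_NWO m_SRL m_RLB
theorem m_ENIU : ST_ENIU :=
  st_ENIU m_OPN m_RLB m_ISLB m_MDLB m_PRIM m_PUNI m_INVA m_WT m_IND m_BC m_BNI m_NOEQ
theorem m_PKA : ST_PKA := st_PKA m_BLK m_FWB m_PRB m_ENIU m_INVA m_INVB m_IND m_NOEQ m_RLB
theorem m_PK : ST_PK := st_PK m_PKA m_PRB m_NOEQ
theorem m_FIN : ST_FIN := st_FIN m_PK m_IND
theorem m_NFV : ST_NFV :=
  st_NFV m_FDOM m_FIN m_WT m_PRB m_SUPO m_SUPU m_ENIU m_INVA m_INVB m_IND m_NOEQ m_ATMB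
theorem m_STN : ST_STN := st_STN m_MDLB
theorem m_NDPG : ST_NDPG := st_NDPG m_STN m_IND
theorem m_PRX : ST_PRX := st_PRX m_DOM m_ATMB
theorem m_NDP : ST_NDP :=
  st_NDP m_NDPG m_FIN m_PRB m_SRDN m_FDOM m_DOM m_PRX m_WT m_WBB m_INVA m_INVB m_SUPU m_ENIU
    m_NOEQ m_ATMB
theorem m_NF : ST_NF :=
  st_NF m_NFV m_NDP m_FDOM m_DOM m_PRX m_SUPB m_SUPU m_ENIU m_INVA m_MDLB m_PRIM m_ATMB m_ISLB
    m_NOEQ m_RLB
theorem m_ACI : ST_ACI :=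
  st_ACI m_NF m_SRFIN m_SRDN m_NWO m_EXCH m_DOM m_PRX m_PRIM m_MDLB m_RLB m_SUPU m_NOEQ m_INVA
    m_ATMB
theorem m_NN : ST_NN :=
  st_NN m_ACI m_ORT m_FIN m_WT m_PRB m_FDOM m_PRIM m_MDLB m_RLB m_SRFIN m_SUPU m_ENIU m_NOEQ
    m_INVA m_INVB m_IND
theorem m_UAC : ST_UAC := st_UAC m_NF m_NWO m_EXCH m_SRDN m_PRX m_PRIM m_MDLB m_RLB m_SUPU m_NOEQ
theorem m_UA : ST_UA := st_UA m_UAC m_NN m_MDLB m_SUPU m_SUPO m_NOEQ
theorem m_FO : ST_FO := st_FO m_MDLB m_STN m_SUPU m_NOEQ m_INVA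
theorem m_ORBC : ST_ORBC := st_ORBC m_FO m_NOEQ m_INVA
theorem m_ACF : ST_ACF :=
  st_ACF m_NN m_ACI m_UA m_ORBC m_CT m_ORT m_ENIU m_PRIM m_MDLB m_RLB m_SRFIN m_SUPU m_NOEQ m_INVA
    m_IND m_FDOM m_FWB m_ATMB
theorem m_BAI : ST_BAI := st_BAI
theorem m_BAS : ST_BAS := st_BAS m_SEM m_RLB
theorem m_DIM : ST_DIM := st_DIM m_WBB m_WT m_BAS m_NWO m_PRIM m_RLB m_IND m_NOEQ m_DOM
theorem m_CC : ST_CC :=
  st_CC m_DIM m_ENIU m_PRIM m_PUNI m_STN m_WT m_INVA m_INVB m_NOEQ m_MDLB m_USEV m_IND m_RLB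
theorem m_OTH : ST_OTH := st_OTH
theorem m_OTB : ST_OTB := st_OTB st_CSAT
theorem m_OTW : ST_OTW := st_OTW m_OTH m_OTB
theorem m_OTS : ST_OTS := st_OTS m_OTW
theorem m_OTT : ST_OTT := st_OTT m_OTS
theorem m_UDC : ST_UDC := st_UDC
theorem m_ISOE : ST_ISOE := st_ISOE
theorem m_FEW : ST_FEW := st_FEW m_OTT m_UDC m_ISOE
theorem m_LFN : ST_LFN :=
  st_LFN m_ORBC m_CT m_FWB m_ENIU m_SUPU m_SRL m_PRIM m_ATMB m_MDLB m_INVA m_NOEQ m_RLB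
theorem m_LOCI : ST_LOCI := st_LOCI m_RLB m_IND
theorem m_LOCK : ST_LOCK := st_LOCK m_RLB
theorem m_ZL : ST_ZL := st_ZL m_RLB
theorem m_LOC : ST_LOC := st_LOC m_LOCI m_LOCK m_ZL m_ISLB
theorem m_LOB : ST_LOB := st_LOB m_LOC m_ATMB m_OPN m_ISLB m_RLB
theorem m_TRI : ST_TRI := st_TRI m_RLB m_IND
theorem m_NTG : ST_NTG := st_NTG m_IND m_RLB
theorem m_NT : ST_NT :=
  st_NT m_TRI m_NTG m_ACI m_FIN m_PRB m_PWA m_WBB m_FDOM m_MDLB m_PRIM m_RLB m_SRFIN m_SUPU m_ENIU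
    m_NOEQ m_INVA m_INVB m_IND
theorem m_ORC : ST_ORC := st_ORC m_LOCK m_RLB m_IND
theorem m_TL : ST_TL := st_TL m_WT m_IND m_RLB
theorem m_TA : ST_TA := st_TA m_TL m_WT m_IND m_RLB
theorem m_TLS : ST_TLS := st_TLS m_TL m_RLB m_IND
theorem m_UMD : ST_UMD := st_UMD
theorem m_UNQ : ST_UNQ := st_UNQ m_RLB
theorem m_ZA : ST_ZA :=
  st_ZA m_TA m_NT m_CHN m_NWO m_USEV m_SRL m_SUPB m_SUPU m_PRIM m_MDLB m_RLB m_NOEQ
theorem m_ZBE : ST_ZBE := st_ZBE m_IND m_ISLB m_RLB m_INVA m_INVB m_STN m_MDLB m_RKZ m_SUPU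
theorem m_ZBI : ST_ZBI := st_ZBI m_TLS m_NT m_STN m_IND m_RLB m_INVA
theorem m_ZC : ST_ZC := st_ZC m_ZA m_NF m_SUPB m_SUPU m_DOM m_ATMB m_PRIM m_MDLB m_RLB
theorem m_ZCA : ST_ZCA := st_ZCA m_ACF m_NN m_ACI m_SUPU m_NOEQ
theorem m_ZCB : ST_ZCB :=
  st_ZCB m_FIN m_NF m_PRB m_SUPB m_SUPU m_ENIU m_FDOM m_STN m_WT m_PRIM m_MDLB m_RLB m_INVA m_INVB
    m_NOEQ
theorem m_ZCD : ST_ZCD := st_ZCD m_LFN m_STN m_ENIU m_SUPU m_PRIM m_ATMB m_MDLB m_NOEQ m_RLB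
theorem m_ZCH : ST_ZCH := st_ZCH m_ZCA m_ZCB m_ZCD m_ZL m_RLB m_MDLB
theorem m_ZDM : ST_ZDM := st_ZDM m_CC m_DIM m_ENIU m_INVA m_INVB m_STN m_NOEQ m_MDLB m_IND
theorem m_ZQA : ST_ZQA := st_ZQA m_BAS m_ATMB m_ISLB m_RLB m_IND
theorem m_ZQ : ST_ZQ :=
  st_ZQ m_LOC m_LOB m_ZQA m_SRX m_SRFIN m_NWO m_PRIM m_ATMB m_ISLB m_NOEQ m_RLB
theorem m_ZSB : ST_ZSB := st_ZSB m_ORC m_UNQ m_IND m_RLB m_INVA m_INVB m_MDLB m_DIM
theorem m_ZX : ST_ZX :=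
  st_ZX m_ZC m_CTR m_FO m_STN m_ISLB m_INVA m_INVB m_NOEQ m_MDLB m_ENIU m_SUPU
theorem m_ZZ : ST_ZZ :=
  st_ZZ m_ZCH m_ZBE m_ZBI m_ZX m_ZDM m_ZSB m_ZQ m_LOB m_PRIM m_PUNI m_INVA m_INVB m_NOEQ m_MDLB
    m_ISLB

/-- the full answer -/
theorem full : ST_FULL :=
  full_asm st_CINV (st_UBOOL st_CINV) st_UIMG
    (st_USORT a_uu1 st_CPAR st_CCNT st_CINV a_cinvd) (st_USAT st_CSAT st_CINV a_uu1)
    (st_UOST st_CTYPE a_cinvd st_CCNT) (st_USTAB st_CPAR) a_ucode a_uu1 a_trc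
    (st_SML st_CTYPE) a_umod a_utop (st_UTRIV st_CINV st_CPAR a_uu1) m_UMD m_FEW m_ZZ m_BAI

end Pool.Agent.Helper90.MZ
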