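import Pool.Agent.Helper90.TS.All

/-!
# MP_79eb7e_lc, full answer: definitions (omega-stable context with few countable models)

Paper proof of everything: /team-store/h90_full79.md
-/

set_option autoImplicit false

namespace Pool.Agent.Helper90.MZ

open Pool.Agent.Helper90.TS

/-- one variable -/
abbrev Pt (V : Type) := Fin 1 → V

variable {V G : Type} [Group G] [MulAction G V]

/-- countable models -/
def Mdl (X : Ctx V G) (M : Set V) : Prop :=
  M.Countable ∧ ∀ (n : ℕ) (D : Set (Fin n → V)), X.Ov M D → D.Nonempty →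
    ∃ x ∈ D, Set.range x ⊆ M

/-- `tp(c/A)` is isolated -/
def Isl (X : Ctx V G) (A : Set V) {ι : Type} (c : ι → V) : Prop :=
  ∃ D : Set (ι → V), X.Ov A D ∧ c ∈ D ∧ ∀ x ∈ D, Eqv G A c x

/-- `N` is a model, atomic over `A ⊆ N` -/
def Atm (X : Ctx V G) (A N : Set V) : Prop :=
  Mdl X N ∧ A ⊆ N ∧ ∀ (n : ℕ) (c : Fin n → V), Set.range c ⊆ N → Isl X A c

/-- the type of (an enumeration of) `B` over `A` is stationary -/
def Stn (X : Ctx V G) (A B : Set V) : Prop :=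
  ∀ C : Set V, C.Countable → ∀ g ∈ Fx G A, SI X A B C → SI X A (tr g B) C →
    ∃ h ∈ Fx G (A ∪ C), ∀ x ∈ B, h • x = g • x

/-- independent family of sets over `A` -/
def Ind (X : Ctx V G) (A : Set V) {κ : Type} (S : κ → Set V) : Prop :=
  ∀ I J : Set κ, Disjoint I J → SI X A (⋃ i ∈ I, S i) (⋃ j ∈ J, S j)

/-- a type: parameters, a formula, a realization (in one variable) -/
structure Ty (V : Type) where
  A : Set V
  D : Set (Fin 1 → V)
  z : Fin 1 → V

/-- translate of a type -/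
def mv (g : G) (p : Ty V) : Ty V := ⟨tr g p.A, {x | g⁻¹ • x ∈ p.D}, g • p.z⟩

/-- `y` realizes the nonforking extension of `p` to `A ∪ B` -/
def Rl (X : Ctx V G) (p : Ty V) (B : Set V) (y : Fin 1 → V) : Prop :=
  Eqv G p.A p.z y ∧ SI X p.A (Set.range y) B

/-- strongly regular types -/
structure SR (X : Ctx V G) (p : Ty V) : Prop where
  cnt : p.A.Countable
  ov : X.Ov p.A p.D
  mem : p.z ∈ p.D
  sta : Sta X p.A p.z
  nal : X.rk p.A p.z ≠ 0
  reg : ∀ B : Set V, B.Countable → ∀ y ∈ p.D, Rl X p B y ∨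
    ∀ z', Rl X p B z' → SI X (p.A ∪ B) (Set.range z') (Set.range y)

/-- nonorthogonality -/
def NO (X : Ctx V G) (p q : Ty V) : Prop :=
  ∃ (B : Set V) (y y' : Fin 1 → V), B.Countable ∧ p.A ⊆ B ∧ q.A ⊆ B ∧ Rl X p B y ∧ Rl X q B y' ∧
    ¬ SI X B (Set.range y) (Set.range y')

/-- `M` supports (the class of) `q` -/
def Sp (X : Ctx V G) (M : Set V) (q : Ty V) : Prop := ∃ p, SR X p ∧ p.A ⊆ M ∧ NO X p q

/-- every model containing `b` supports `q` -/
def Sup (X : Ctx V G) (b : Set V) (q : Ty V) : Prop := ∀ M, Mdl X M → b ⊆ M → Sp X M q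

/-- `N` omits `p|B` -/
def Om (X : Ctx V G) (p : Ty V) (B N : Set V) : Prop :=
  ∀ y : Fin 1 → V, Set.range y ⊆ N → ¬ Rl X p B y

/-- eventually non-isolated types over finite sets -/
def ENI (X : Ctx V G) (q : Ty V) : Prop :=
  SR X q ∧ q.A.Finite ∧ ∃ F : Set V, F.Finite ∧ q.A ⊆ F ∧ ∀ y, Rl X q F y → ¬ Isl X F y

/-- non-isolated types over finite sets -/
def EN0 (X : Ctx V G) (q : Ty V) : Prop := SR X q ∧ q.A.Finite ∧ ¬ Isl X q.A q.z

/-- `q` is bounded in `N` -/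
def Bd (X : Ctx V G) (q : Ty V) (N : Set V) : Prop :=
  ∃ F : Set V, F.Finite ∧ F ⊆ N ∧ Om X q F N

/-- active types -/
def Act (X : Ctx V G) (p : Ty V) : Prop :=
  ∃ (M N : Set V) (z : Fin 1 → V) (q : Ty V), Mdl X M ∧ p.A ⊆ M ∧ Rl X p M z ∧
    Atm X (M ∪ Set.range z) N ∧ ENI X q ∧ Sp X N q ∧ ¬ Sp X M q

/-- the weight of `u` over `A` is at most `k` (in a strong form) -/
def WB (X : Ctx V G) (A u : Set V) (k : ℕ) : Prop :=
  ∀ Y : Set V, Y.Countable → SI X A u Y → ∀ (m : ℕ) (S : Fin m → Set V),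
    (∀ i, (S i).Countable) → Ind X (A ∪ Y) S →
    ∃ J : Finset (Fin m), J.card ≤ k ∧ SI X (A ∪ Y) (⋃ i ∈ {i | i ∉ J}, S i) u

/-- trivial types -/
def Triv (X : Ctx V G) (p : Ty V) : Prop :=
  ∀ B : Set V, B.Countable → ∀ (m : ℕ) (y : Fin m → Fin 1 → V), (∀ i, Rl X p B (y i)) →
    (∀ i j, i ≠ j → SI X (p.A ∪ B) (Set.range (y i)) (Set.range (y j))) →
    Ind X (p.A ∪ B) (fun i => Set.range (y i))

/-- `c` is isolated over `b ∪ u` and dominated by `u` over `b` -/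
def Dom (X : Ctx V G) (b u : Set V) {ι : Type} (c : ι → V) : Prop :=
  ∃ D : Set (ι → V), X.Ov (b ∪ u) D ∧ c ∈ D ∧ ∀ Y : Set V, Y.Countable → SI X b Y u →
    SI X b Y (u ∪ Set.range c) ∧ ∀ x ∈ D, Eqv G (b ∪ u ∪ Y) c x

/-- elements of tuples of `D` in `N` -/
def Pts (D : Set (Fin 1 → V)) (N : Set V) : Set V := {v | ∃ x ∈ D, Set.range x ⊆ N ∧ v ∈ Set.range x}

/-- a chain of strongly regular extensions from `M` to `u` inside `N` -/
structure Chn (X : Ctx V G) (M N u : Set V) (k : ℕ) (K : ℕ → Set V) (p : ℕ → Ty V) : Prop where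
  zero : K 0 = M
  mdl : ∀ i ≤ k, Mdl X (K i)
  sub : ∀ i ≤ k, K i ⊆ N
  sr : ∀ i < k, SR X (p i) ∧ (p i).A = K i ∧ Set.range (p i).z ⊆ K (i + 1)
  atm : ∀ i < k, Atm X (K i ∪ Set.range (p i).z) (K (i + 1))
  last : u ⊆ K k

/-- `p` is orthogonal to the set `E` (over `M`) -/
def OrF (X : Ctx V G) (p : Ty V) (M : Set V) (E : Set (Fin 1 → V)) : Prop :=
  ∀ B : Set V, B.Countable → M ⊆ B → ∀ b ∈ E, ∀ y, Rl X p B y →
    SI X (p.A ∪ B) (Set.range y) (Set.range b)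

/-- dimension: `k` is the length of a maximal independent sequence of realizations of `p|B` in
`N` -/
def Dmn (X : Ctx V G) (p : Ty V) (B N : Set V) (k : ℕ) : Prop :=
  ∃ y : Fin k → Fin 1 → V, (∀ i, Set.range (y i) ⊆ N ∧ Rl X p B (y i)) ∧
    Ind X (p.A ∪ B) (fun i => Set.range (y i)) ∧ Om X p (B ∪ ⋃ i, Set.range (y i)) N

/-- few countable models -/
def Few (X : Ctx V G) : Prop :=
  ¬ ∃ F : (ℕ → Bool) → Set V, (∀ s, Mdl X (F s)) ∧ ∀ s t, (∃ g : G, tr g (F s) = F t) → s = t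

/-! families of classes of ENI types -/

/-- a family of pairwise orthogonal ENI types, none supported by `b` -/
def Fam (X : Ctx V G) (b : Set V) {κ : Type} (C : κ → Ty V) : Prop :=
  (∀ i, ENI X (C i) ∧ ¬ Sup X b (C i)) ∧ ∀ i j, i ≠ j → ¬ NO X (C i) (C j)

/-- the subfamily `J` has representatives with independent bases over `b` -/
def Idp (X : Ctx V G) (b : Set V) {κ : Type} (C : κ → Ty V) (J : Set κ) : Prop :=
  ∃ q : κ → Ty V, (∀ i ∈ J, SR X (q i) ∧ (q i).A.Finite ∧ NO X (q i) (C i)) ∧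
    Ind X b (fun i : J => (q i).A)

/-- indecomposable families -/
def Indec (X : Ctx V G) (b : Set V) {κ : Type} (C : κ → Ty V) : Prop :=
  ∀ J : Set κ, J.Nonempty → Jᶜ.Nonempty → ∃ J1 J2 : Set κ, J1 ⊆ J ∧ J2 ⊆ Jᶜ ∧
    Idp X b C J1 ∧ Idp X b C J2 ∧ ¬ Idp X b C (J1 ∪ J2)

/-- no base of (the class of) `q` is independent from `y` over `b` -/
def NB (X : Ctx V G) (b y : Set V) (q : Ty V) : Prop :=
  ∀ q', SR X q' → q'.A.Finite → NO X q' q → ¬ SI X b q'.A y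

end Pool.Agent.Helper90.MZ
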