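import Pool.Agent.Helper90.MZ.StmtsT

set_option autoImplicit false

namespace Pool.Agent.Helper90.MZ

open Pool.Agent.Helper90.TS
open FirstOrder Language

theorem isoe_tp {L : FirstOrder.Language.{0, 0}} {C : Type} [L.Structure C]
    (N N' : L.ElementarySubstructure C) (e : N ≃[L] N') (n : ℕ) (a : Fin n → N)
    (D : Set (Fin n → C)) (hD : (∅ : Set C).Definable L D) :
    (fun i => (a i : C)) ∈ D ↔ (fun i => (e (a i) : C)) ∈ D := by
  obtain ⟨φ, rfl⟩ := Set.empty_definable_iff.1 hD
  have h1 : ∀ (M : L.ElementarySubstructure C) (x : Fin n → M),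
      φ.Realize (fun i => (x i : C)) ↔ φ.Realize x := by
    intro M x
    exact M.subtype.map_formula φ x
  change φ.Realize _ ↔ φ.Realize _
  rw [h1 N a, h1 N' (fun i => e (a i))]
  exact (StrongHomClass.realize_formula e φ (v := a)).symm

theorem st_ISOE : ST_ISOE := by
  intro L C _ S hM N N' e hN
  by_cases hC : Nonempty N
  · have : Countable N := hN.to_subtype
    obtain ⟨a, ha⟩ := exists_surjective_nat N
    obtain ⟨g, hg⟩ := hM.hom (fun i => (a i : C)) (fun i => (e (a i) : C)) (by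
      intro n
      ext D
      constructor
      · rintro ⟨h1, h2⟩
        exact ⟨h1, (isoe_tp N N' e n (fun i => a i) D h1).1 h2⟩
      · rintro ⟨h1, h2⟩
        exact ⟨h1, (isoe_tp N N' e n (fun i => a i) D h1).2 h2⟩)
    obtain ⟨g', hg'⟩ := AutG.ofEquiv g
    refine ⟨g', fun x => ?_⟩
    obtain ⟨i, rfl⟩ := ha x
    rw [hg']
    exact hg i
  · exact ⟨1, fun x => (hC ⟨x⟩).elim⟩

end Pool.Agent.Helper90.MZ
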