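import Pool.Agent.Helper90.MZ.Base

/-!
# MP_79eb7e_lc, full answer: statements of parts A (models, isolation, domination) and B (strongly
regular types). Proofs: /team-store/h90_full79.md
-/

set_option autoImplicit false

namespace Pool.Agent.Helper90.MZ

open Pool.Agent.Helper90.TS

/-! ## A -/

/-- MDLB: models -/
def ST_MDLB : Prop := ∀ (V G : Type) [Group G] [MulAction G V] (X : Ctx V G),
  (∀ M : Set V, Sat G M → Mdl X M) ∧
  (∀ A B C : Set V, A ⊆ C → C.Countable → B.Countable → SI X A C B →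
    ∃ M, Mdl X M ∧ C ⊆ M ∧ SI X A M B) ∧
  (∀ M : Set V, Mdl X M → acl G M = M) ∧
  (∀ M : Set V, Mdl X M → ∀ (ι : Type) [Finite ι] (b : ι → V), Sta X M b) ∧
  (∀ (M : Set V) (g : G), Mdl X M → Mdl X (tr g M)) ∧
  (∀ M : ℕ → Set V, (∀ n, Mdl X (M n)) → (∀ n, M n ⊆ M (n + 1)) → Mdl X (⋃ n, M n)) ∧
  (∀ M : Set V, Mdl X M → ∀ (ι : Type) [Finite ι] (D : Set (ι → V)), X.Ov M D → D.Nonempty →
    ∃ x ∈ D, Set.range x ⊆ M)

/-- STN: stationary sets -/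
def ST_STN : Prop := ∀ (V G : Type) [Group G] [MulAction G V] (X : Ctx V G),
  (∀ M B : Set V, Mdl X M → B.Countable → Stn X M B) ∧
  (∀ A B B' : Set V, A.Countable → B.Countable → B' ⊆ B → Stn X A B → Stn X A B') ∧
  (∀ A B B' : Set V, A.Countable → B.Countable → B'.Countable → Stn X A B → Stn X A B' →
    SI X A B B' → Stn X A (B ∪ B')) ∧
  (∀ A B : Set V, A.Countable → B.Countable →
    (∀ B0 ⊆ B, B0.Finite → Stn X A B0) → Stn X A B) ∧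
  (∀ A B C : Set V, A.Countable → B.Countable → C.Countable → Stn X A B → SI X A B C →
    Stn X (A ∪ C) B) ∧
  (∀ (A B : Set V) (g : G), A.Countable → B.Countable → Stn X A B → Stn X (tr g A) (tr g B)) ∧
  (∀ A u : Set V, A.Countable → u.Finite → ∃ e ⊆ acl G A, e.Finite ∧ Stn X (A ∪ e) u)

/-- IND: independent families -/
def ST_IND : Prop := ∀ (V G : Type) [Group G] [MulAction G V] (X : Ctx V G) (A : Set V),
  A.Countable →
  (∀ S : ℕ → Set V, (∀ i, (S i).Countable) →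
    (∀ i, SI X A (S i) (⋃ j ∈ {j | j < i}, S j)) → Ind X A S) ∧
  (∀ (m : ℕ) (S : Fin m → Set V), (∀ i, (S i).Countable) →
    (∀ i, SI X A (S i) (⋃ j ∈ {j | j < i}, S j)) → Ind X A S) ∧
  (∀ (κ κ' : Type) (S : κ → Set V) (f : κ' → κ), Function.Injective f → Ind X A S →
    Ind X A (fun i => S (f i))) ∧
  (∀ (κ : Type) [Countable κ] (S : κ → Set V) (Y : Set V), (∀ i, (S i).Countable) →
    Y.Countable → Ind X A S → SI X A (⋃ i, S i) Y → Ind X (A ∪ Y) S) ∧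
  (∀ (κ : Type) [Countable κ] (S S' : κ → Set V), (∀ i, (S i).Countable) →
    (∀ i, (S' i).Countable) → Ind X A S →
    (∀ i, S' i ⊆ S i ∨ (S i ⊆ S' i ∧ ∀ Y : Set V, Y.Countable → SI X A Y (S i) →
      SI X A Y (S' i))) → Ind X A S') ∧
  (∀ (T : ℕ → Set V) (C : Set V), (∀ i, (T i).Countable) → C.Countable →
    ∃ g : ℕ → G, (∀ i, g i ∈ Fx G A) ∧ Ind X A (fun i => tr (g i) (T i)) ∧
      SI X A (⋃ i, tr (g i) (T i)) C) ∧
  (∀ (κ : Type) [Countable κ] (S : κ → Set V) (g : G), (∀ i, (S i).Countable) → Ind X A S →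
    Ind X (tr g A) (fun i => tr g (S i))) ∧
  (∀ (κ κ' : Type) [Countable κ] [Countable κ'] (S : κ → Set V) (S' : κ' → Set V),
    (∀ i, (S i).Countable) → (∀ i, (S' i).Countable) → Ind X A S → Ind X A S' →
    SI X A (⋃ i, S i) (⋃ i, S' i) → Ind X A (Sum.elim S S')) ∧
  (∀ (κ : Type) [Countable κ] (S : κ → Set V), (∀ i, (S i).Countable) →
    (∀ s : Finset κ, Ind X A (fun i : s => S i)) → Ind X A S)

/-- COH: coheirs -/
def ST_COH : Prop := ∀ (V G : Type) [Group G] [MulAction G V] (X : Ctx V G) (M B C : Set V),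
  Mdl X M → B.Countable → C.Countable → SI X M B C → ∀ (ι : Type) [Finite ι]
    (D : Set (ι → V)) (β : ι → V), X.Ov (M ∪ C) D → β ∈ D → Set.range β ⊆ B →
    ∃ β' ∈ D, Set.range β' ⊆ M

/-- ISLB: isolation -/
def ST_ISLB : Prop := ∀ (V G : Type) [Group G] [MulAction G V] (X : Ctx V G) (A : Set V),
  A.Countable → ∀ (ι : Type) [Finite ι] (c : ι → V),
  (∀ (κ : Type) [Finite κ] (c' : κ → V), Isl X A (Sum.elim c c') ↔
    Isl X A c ∧ Isl X (A ∪ Set.range c) c') ∧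
  (∀ (κ : Type) [Finite κ] (c' : κ → V), Isl X A c → Set.range c' ⊆ A ∪ Set.range c →
    Isl X A c') ∧
  (∀ g : G, Isl X (tr g A) (g • c) ↔ Isl X A c) ∧
  (Isl X A c → ∃ F ⊆ A, F.Finite ∧ ∃ D : Set (ι → V), X.Ov F D ∧ c ∈ D ∧
    (∀ x ∈ D, Eqv G A c x) ∧ SI X F (Set.range c) A) ∧
  (∀ N : Set V, Mdl X N → A ⊆ N → Isl X A c → ∃ c' : ι → V, Set.range c' ⊆ N ∧ Eqv G A c c') ∧
  (Mdl X A → Isl X A c → Set.range c ⊆ A) ∧
  (∀ c' : ι → V, Eqv G A c c' → Isl X A c → Isl X A c')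

/-- ATMB: atomic models -/
def ST_ATMB : Prop := ∀ (V G : Type) [Group G] [MulAction G V] (X : Ctx V G) (A N : Set V),
  (Atm X A N → ∀ F ⊆ N, F.Finite → Atm X (A ∪ F) N) ∧
  (∀ (ι : Type) [Finite ι] (f : ι → V), Isl X A f → Atm X (A ∪ Set.range f) N → Atm X A N) ∧
  (∀ g : G, Atm X A N → Atm X (tr g A) (tr g N)) ∧
  (∀ K : ℕ → Set V, (∀ n, Atm X A (K n)) → (∀ n, K n ⊆ K (n + 1)) → Atm X A (⋃ n, K n)) ∧
  (∀ Y N' : Set V, Atm X (N ∪ Y) N' → A ⊆ N →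
    (∀ (n : ℕ) (c : Fin n → V), Set.range c ⊆ N → Isl X (A ∪ Y) c) → Atm X (A ∪ Y) N') ∧
  (Atm X A N → ∀ (ι : Type) [Finite ι] (c : ι → V), Set.range c ⊆ N → Isl X A c)

/-- PRIM: prime models inside a model -/
def ST_PRIM : Prop := ∀ (V G : Type) [Group G] [MulAction G V] (X : Ctx V G) (A N : Set V),
  Mdl X N → A ⊆ N → ∃ M ⊆ N, Atm X A M

/-- PUNI: uniqueness of atomic models -/
def ST_PUNI : Prop := ∀ (V G : Type) [Group G] [MulAction G V] (X : Ctx V G) (A M M' : Set V)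
  (g : G), Atm X A M → Atm X (tr g A) M' → ∃ h : G, (∀ x ∈ A, h • x = g • x) ∧ tr h M = M'

/-- OPN: open mapping theorem -/
def ST_OPN : Prop := ∀ (V G : Type) [Group G] [MulAction G V] (X : Ctx V G) (A B : Set V),
  A ⊆ B → B.Countable → ∀ (ι : Type) [Finite ι] (c : ι → V), Isl X B c →
    SI X A (Set.range c) B → Isl X A c

/-- USEV -/
def ST_USEV : Prop := ∀ (V G : Type) [Group G] [MulAction G V] (X : Ctx V G) (M Z : Set V),
  Mdl X M → Z.Countable → ∀ (ι : Type) [Finite ι] (c : ι → V), Isl X (M ∪ Z) c →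
    SI X M (Set.range c) Z → Set.range c ⊆ M

/-- TVL: isolation over independent sets -/
def ST_TVL : Prop := ∀ (V G : Type) [Group G] [MulAction G V] (X : Ctx V G) (M Z Y : Set V),
  Mdl X M → Z.Countable → Y.Countable → SI X M Y Z → ∀ (ι : Type) [Finite ι]
    (D : Set (ι → V)) (c : ι → V), X.Ov (M ∪ Z) D → c ∈ D → (∀ x ∈ D, Eqv G (M ∪ Z) c x) →
    ∀ x ∈ D, Eqv G (M ∪ Z ∪ Y) c x

/-- DOM: domination -/
def ST_DOM : Prop := ∀ (V G : Type) [Group G] [MulAction G V] (X : Ctx V G) (M Z Y N : Set V),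
  Mdl X M → Z.Countable → Y.Countable → Atm X (M ∪ Z) N → SI X M Y Z → SI X M Y N ∧
    ∀ (ι : Type) [Finite ι] (c : ι → V), Set.range c ⊆ N → Isl X (M ∪ Z ∪ Y) c

/-- PRX -/
def ST_PRX : Prop := ∀ (V G : Type) [Group G] [MulAction G V] (X : Ctx V G)
  (M Z Y N N' : Set V), Mdl X M → Z.Countable → Y.Countable → Atm X (M ∪ Z) N → SI X M Y Z →
    Atm X (N ∪ Y) N' → Atm X (M ∪ Z ∪ Y) N'

/-- SEM: stable embeddedness of definable sets -/
def ST_SEM : Prop := ∀ (V G : Type) [Group G] [MulAction G V] (X : Ctx V G) (A N : Set V)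
  (D : Set (Fin 1 → V)), Mdl X N → A ⊆ N → X.Ov A D →
  ∀ (m : ℕ) (z : Fin m → Fin 1 → V), (∀ i, z i ∈ D) →
  SI X (A ∪ Pts D N) (⋃ i, Set.range (z i)) N ∧
  (Mdl X A → ∀ Y : Set V, Y.Countable → SI X A Y N →
    SI X (A ∪ Y ∪ Pts D N) (⋃ i, Set.range (z i)) N)

/-- RKZ: rank zero -/
def ST_RKZ : Prop := ∀ (V G : Type) [Group G] [MulAction G V] (X : Ctx V G) (A : Set V),
  A.Countable → ∀ (ι : Type) [Finite ι] (b : ι → V), X.rk A b = 0 ↔ ∀ i, b i ∈ acl G A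

/-- FDOM: finite bases for domination -/
def ST_FDOM : Prop := ∀ (V G : Type) [Group G] [MulAction G V] (X : Ctx V G) (M u : Set V),
  Mdl X M → u.Finite → ∀ (ι : Type) [Finite ι] (c : ι → V), Isl X (M ∪ u) c →
    ∃ b0 ⊆ M, b0.Finite ∧ ∀ b : Set V, b0 ⊆ b → b ⊆ M → Dom X b u c ∧
      SI X b (u ∪ Set.range c) M

/-! ## B -/

/-- INVA: invariance (one direction suffices) -/
def ST_INVA : Prop := ∀ (V G : Type) [Group G] [MulAction G V] (X : Ctx V G) (g : G),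
  (∀ p : Ty V, mv g⁻¹ (mv g p) = p) ∧
  (∀ (p : Ty V) (B : Set V) (y : Fin 1 → V), p.A.Countable → B.Countable → Rl X p B y →
    Rl X (mv g p) (tr g B) (g • y)) ∧
  (∀ p : Ty V, SR X p → SR X (mv g p)) ∧
  (∀ p q : Ty V, NO X p q → NO X (mv g p) (mv g q)) ∧
  (∀ (M : Set V) (q : Ty V), Sp X M q → Sp X (tr g M) (mv g q)) ∧
  (∀ (b : Set V) (q : Ty V), Sup X b q → Sup X (tr g b) (mv g q)) ∧
  (∀ (p : Ty V) (B N : Set V), p.A.Countable → B.Countable → Om X p B N →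
    Om X (mv g p) (tr g B) (tr g N)) ∧
  (∀ (q : Ty V) (N : Set V), q.A.Countable → Bd X q N → Bd X (mv g q) (tr g N)) ∧
  (∀ q : Ty V, ENI X q → ENI X (mv g q)) ∧
  (∀ q : Ty V, EN0 X q → EN0 X (mv g q)) ∧
  (∀ p : Ty V, Act X p → Act X (mv g p)) ∧
  (∀ p : Ty V, SR X p → g ∈ Fx G p.A → (mv g p).A = p.A ∧ (mv g p).D = p.D ∧
    (∀ (B : Set V) (y : Fin 1 → V), Rl X (mv g p) B y ↔ Rl X p B y) ∧ NO X (mv g p) p)

/-- INVB: invariance -/
def ST_INVB : Prop := ∀ (V G : Type) [Group G] [MulAction G V] (X : Ctx V G) (g : G),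
  (∀ (A u : Set V) (k : ℕ), A.Countable → u.Countable → WB X A u k →
    WB X (tr g A) (tr g u) k) ∧
  (∀ p : Ty V, p.A.Countable → Triv X p → Triv X (mv g p)) ∧
  (∀ (b u : Set V) (ι : Type) [Finite ι] (c : ι → V), b.Countable → u.Countable →
    Dom X b u c → Dom X (tr g b) (tr g u) (g • c)) ∧
  (∀ (p : Ty V) (B N : Set V) (k : ℕ), p.A.Countable → B.Countable → Dmn X p B N k →
    Dmn X (mv g p) (tr g B) (tr g N) k) ∧
  (∀ (b : Set V) (κ : Type) (C : κ → Ty V), Fam X b C → Fam X (tr g b) (fun i => mv g (C i))) ∧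
  (∀ (b : Set V) (κ : Type) [Countable κ] (C : κ → Ty V) (J : Set κ), b.Countable →
    Idp X b C J → Idp X (tr g b) (fun i => mv g (C i)) J) ∧
  (∀ (b : Set V) (κ : Type) [Countable κ] (C : κ → Ty V), b.Countable →
    Indec X b C → Indec X (tr g b) (fun i => mv g (C i))) ∧
  (∀ (b y : Set V) (q : Ty V), b.Countable → y.Countable → NB X b y q →
    NB X (tr g b) (tr g y) (mv g q)) ∧
  (∀ (p : Ty V) (M : Set V) (E : Set (Fin 1 → V)), p.A.Countable → OrF X p M E →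
    OrF X (mv g p) (tr g M) {x | g⁻¹ • x ∈ E})

/-- RLB: realizations -/
def ST_RLB : Prop := ∀ (V G : Type) [Group G] [MulAction G V] (X : Ctx V G) (p : Ty V),
  SR X p → ∀ B : Set V, B.Countable →
  (∃ y, Rl X p B y) ∧
  (∀ y y', Rl X p B y → Rl X p B y' → Eqv G (p.A ∪ B) y y') ∧
  (∀ y, Rl X p B y → ∀ B' ⊆ p.A ∪ B, Rl X p B' y) ∧
  (∀ y (C : Set V), C.Countable → Rl X p B y → SI X (p.A ∪ B) (Set.range y) C →
    Rl X p (B ∪ C) y) ∧
  (∀ y (C : Set V), C.Countable → Rl X p (B ∪ C) y → SI X (p.A ∪ B) (Set.range y) C) ∧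
  (∀ y y', Rl X p B y → Eqv G (p.A ∪ B) y y' → Rl X p B y') ∧
  (∀ y, Rl X p B y → y ∈ p.D) ∧
  (∀ y, Rl X p B y → Mdl X B → p.A ⊆ B → ¬ Set.range y ⊆ B) ∧
  (∀ y, Rl X p B y → X.rk (p.A ∪ B) y = X.rk p.A p.z ∧ Sta X (p.A ∪ B) y)

/-- BC: base change -/
def ST_BC : Prop := ∀ (V G : Type) [Group G] [MulAction G V] (X : Ctx V G) (p : Ty V)
  (B : Set V) (y : Fin 1 → V), SR X p → B.Countable → Rl X p B y →
  SR X ⟨p.A ∪ B, p.D, y⟩ ∧
  (∀ (C : Set V) (y' : Fin 1 → V), C.Countable →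
    (Rl X ⟨p.A ∪ B, p.D, y⟩ C y' ↔ Rl X p (B ∪ C) y')) ∧
  NO X p ⟨p.A ∪ B, p.D, y⟩ ∧ NO X ⟨p.A ∪ B, p.D, y⟩ p

/-- SRFIN: finite bases -/
def ST_SRFIN : Prop := ∀ (V G : Type) [Group G] [MulAction G V] (X : Ctx V G) (p : Ty V),
  SR X p → ∃ A0 ⊆ p.A, A0.Finite ∧ ∀ A' : Set V, A0 ⊆ A' → A' ⊆ p.A →
    SR X ⟨A', p.D, p.z⟩ ∧ NO X ⟨A', p.D, p.z⟩ p ∧ NO X p ⟨A', p.D, p.z⟩ ∧
    SI X A' (Set.range p.z) p.A ∧
    ∀ (B : Set V) (y : Fin 1 → V), B.Countable →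
      (Rl X p B y ↔ Rl X ⟨A', p.D, p.z⟩ (p.A ∪ B) y)

/-- SRMIN: types of minimal rank are strongly regular -/
def ST_SRMIN : Prop := ∀ (V G : Type) [Group G] [MulAction G V] (X : Ctx V G) (M N : Set V)
  (D : Set (Fin 1 → V)) (α : Ordinal.{0}) (x : Fin 1 → V), Mdl X M → Mdl X N → M ⊆ N →
  X.Ov M D → X.Dg1 α D → x ∈ D → Set.range x ⊆ N → ¬ Set.range x ⊆ M →
  (∀ E : Set (Fin 1 → V), X.Ov M E → (∃ y ∈ E, Set.range y ⊆ N ∧ ¬ Set.range y ⊆ M) →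
    X.Rge α E) → SR X ⟨M, D, x⟩ ∧ X.rk M x = α

/-- SRX: existence of strongly regular types -/
def ST_SRX : Prop := ∀ (V G : Type) [Group G] [MulAction G V] (X : Ctx V G) (M N : Set V),
  Mdl X M → Mdl X N → M ⊆ N → M ≠ N → ∃ p : Ty V, SR X p ∧ p.A = M ∧ Set.range p.z ⊆ N ∧
    ¬ Set.range p.z ⊆ M

/-- SRL -/
def ST_SRL : Prop := ∀ (V G : Type) [Group G] [MulAction G V] (X : Ctx V G) (p : Ty V)
  (B N : Set V), SR X p → Mdl X N → p.A ⊆ N → B ⊆ N → Om X p B N →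
    ∀ y, Rl X p B y → Rl X p N y

/-- SRM -/
def ST_SRM : Prop := ∀ (V G : Type) [Group G] [MulAction G V] (X : Ctx V G) (p : Ty V)
  (M N Y : Set V) (y : Fin 1 → V), SR X p → Mdl X M → p.A ⊆ M → Mdl X N → M ⊆ N →
    Om X p M N → Y.Countable → SI X M Y N → Rl X p (M ∪ Y) y →
    SI X (M ∪ Y) (Set.range y) N

/-- NWO: nonorthogonal types over a model are not weakly orthogonal -/
def ST_NWO : Prop := ∀ (V G : Type) [Group G] [MulAction G V] (X : Ctx V G) (p q : Ty V)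
  (N N' : Set V) (y' : Fin 1 → V), SR X p → SR X q → NO X p q → Mdl X N → p.A ⊆ N → q.A ⊆ N →
    Rl X q N y' → Mdl X N' → N ⊆ N' → Set.range y' ⊆ N' →
    ∃ y : Fin 1 → V, Set.range y ⊆ N' ∧ Rl X p N y

/-- NOEQ: nonorthogonality is an equivalence relation -/
def ST_NOEQ : Prop := ∀ (V G : Type) [Group G] [MulAction G V] (X : Ctx V G),
  (∀ p : Ty V, SR X p → NO X p p) ∧ (∀ p q : Ty V, NO X p q → NO X q p) ∧
  (∀ p q r : Ty V, SR X p → SR X q → SR X r → NO X p q → NO X q r → NO X p r)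

/-- EXCH: exchange -/
def ST_EXCH : Prop := ∀ (V G : Type) [Group G] [MulAction G V] (X : Ctx V G) (p q : Ty V)
  (N N' : Set V) (y y' : Fin 1 → V), SR X p → SR X q → Mdl X N → p.A ⊆ N → q.A ⊆ N →
    Rl X q N y' → Atm X (N ∪ Set.range y') N' → Set.range y ⊆ N' → Rl X p N y →
    ¬ SI X N (Set.range y) (Set.range y') ∧ NO X p q ∧ Isl X (N ∪ Set.range y) y' ∧
      Atm X (N ∪ Set.range y) N'

/-- PWA: strongly regular types have preweight one -/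
def ST_PWA : Prop := ∀ (V G : Type) [Group G] [MulAction G V] (X : Ctx V G) (p : Ty V)
  (B g1 g2 : Set V) (y : Fin 1 → V), SR X p → B.Countable → Rl X p B y → g1.Countable →
    g2.Countable → SI X (p.A ∪ B) g1 g2 →
    SI X (p.A ∪ B) (Set.range y) g1 ∨ SI X (p.A ∪ B) (Set.range y) g2

/-- CHN: chains of strongly regular extensions -/
def ST_CHN : Prop := ∀ (V G : Type) [Group G] [MulAction G V] [Nonempty V] (X : Ctx V G)
  (M N u : Set V),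
  Mdl X M → Mdl X N → M ⊆ N → u ⊆ N → u.Finite → ∃ k K p, Chn X M N u k K p

/-- WBB: weight, basic facts -/
def ST_WBB : Prop := ∀ (V G : Type) [Group G] [MulAction G V] (X : Ctx V G),
  (∀ (A u : Set V) (k l : ℕ), k ≤ l → WB X A u k → WB X A u l) ∧
  (∀ (A u Y : Set V) (k : ℕ), A.Countable → u.Countable → Y.Countable → SI X A u Y →
    WB X A u k → WB X (A ∪ Y) u k) ∧
  (∀ (A u v : Set V) (k l : ℕ), A.Countable → u.Countable → v.Countable → WB X A u k →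
    WB X (A ∪ u) v l → WB X A (u ∪ v) (k + l)) ∧
  (∀ (p : Ty V) (B : Set V) (y : Fin 1 → V), SR X p → B.Countable → Rl X p B y →
    WB X (p.A ∪ B) (Set.range y) 1) ∧
  (∀ (A u v : Set V) (k : ℕ), A.Countable → v.Countable → u ⊆ v → WB X A v k → WB X A u k)

/-- WT: finite sets have finite weight -/
def ST_WT : Prop := ∀ (V G : Type) [Group G] [MulAction G V] (X : Ctx V G) (A u : Set V),
  A.Countable → u.Finite → ∃ k, WB X A u k

/-- BAS: bases -/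
def ST_BAS : Prop := ∀ (V G : Type) [Group G] [MulAction G V] (X : Ctx V G) (p : Ty V)
  (B N : Set V) (κ : Type) [Countable κ] (y : κ → Fin 1 → V), SR X p → Mdl X N → p.A ⊆ N →
    B ⊆ N → Om X p B N → (∀ i, Rl X p B (y i)) →
    Ind X (p.A ∪ B) (fun i => Set.range (y i)) →
    SI X (p.A ∪ B) (⋃ i, Set.range (y i)) N

/-- BNI: boundedness is a class property -/
def ST_BNI : Prop := ∀ (V G : Type) [Group G] [MulAction G V] (X : Ctx V G) (q q' : Ty V)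
  (N : Set V), SR X q → SR X q' → q.A.Finite → q'.A.Finite → Mdl X N → q.A ⊆ N → q'.A ⊆ N →
    NO X q q' → Bd X q' N → Bd X q N

/-- ENIU: ENI types -/
def ST_ENIU : Prop := ∀ (V G : Type) [Group G] [MulAction G V] (X : Ctx V G) (q : Ty V),
  (SR X q → ∀ (F F' : Set V) (y y' : Fin 1 → V), F ⊆ F' → F'.Countable → Rl X q F y →
    Rl X q F' y' → ¬ Isl X (q.A ∪ F) y → ¬ Isl X (q.A ∪ F') y') ∧
  (ENI X q → ∀ (E N : Set V), E.Finite → q.A ⊆ E → Atm X E N → Bd X q N) ∧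
  (ENI X q → ∀ N : Set V, Mdl X N → q.A ⊆ N → ∃ F : Set V, F.Finite ∧ q.A ⊆ F ∧ F ⊆ N ∧
    ∀ y, Rl X q F y → EN0 X ⟨F, q.D, y⟩ ∧ NO X ⟨F, q.D, y⟩ q) ∧
  (ENI X q → ∀ q' : Ty V, SR X q' → q'.A.Finite → NO X q q' → ENI X q') ∧
  (EN0 X q → ENI X q)

/-- OFA: orthogonality to a definable set -/
def ST_OFA : Prop := ∀ (V G : Type) [Group G] [MulAction G V] (X : Ctx V G),
  (∀ (p : Ty V) (M : Set V) (E E' : Set (Fin 1 → V)), OrF X p M E → OrF X p M E' →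
    OrF X p M (E ∪ E')) ∧
  (∀ (p : Ty V) (M : Set V) (E E' : Set (Fin 1 → V)), E' ⊆ E → OrF X p M E →
    OrF X p M E') ∧
  (∀ (p p' : Ty V) (M : Set V) (E : Set (Fin 1 → V)), SR X p → SR X p' → NO X p p' →
    M.Countable → X.Ov M E → OrF X p M E → OrF X p' M E)

/-- OFN: new points of non-orthogonal sets -/
def ST_OFN : Prop := ∀ (V G : Type) [Group G] [MulAction G V] (X : Ctx V G) (p : Ty V)
  (M N N' : Set V) (E : Set (Fin 1 → V)) (y : Fin 1 → V), SR X p → M ⊆ N → Mdl X N →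
    p.A ⊆ N → X.Ov M E → ¬ OrF X p M E → Rl X p N y → Mdl X N' → N ⊆ N' → Set.range y ⊆ N' →
    ∃ x ∈ E, Set.range x ⊆ N' ∧ ¬ SI X N (Set.range y) (Set.range x)

/-- SRDA: descent, the set of least rank -/
def ST_SRDA : Prop := ∀ (V G : Type) [Group G] [MulAction G V] (X : Ctx V G) (M : Set V)
  (s : Ty V), Mdl X M → SR X s → ∃ (α : Ordinal.{0}) (θ : Set (Fin 1 → V)), X.Ov M θ ∧
    X.Dg1 α θ ∧ ¬ OrF X s M θ ∧ ∀ E : Set (Fin 1 → V), X.Ov M E → ¬ X.Rge α E → OrF X s M E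

/-- SRDB: descent, generic points -/
def ST_SRDB : Prop := ∀ (V G : Type) [Group G] [MulAction G V] (X : Ctx V G)
  (M M1 : Set V) (s : Ty V) (g : G) (α : Ordinal.{0}) (θ : Set (Fin 1 → V))
  (d e : Fin 1 → V), Mdl X M → Mdl X M1 → M ⊆ M1 → SR X s → s.A ⊆ M1 →
    g ∈ Fx G M → SI X M (tr g M1) M1 → NO X s (mv g s) →
    X.Ov M θ → X.Dg1 α θ → (∀ E : Set (Fin 1 → V), X.Ov M E → ¬ X.Rge α E → OrF X s M E) →
    Rl X s M1 d → e ∈ θ → ¬ SI X M1 (Set.range d) (Set.range e) → X.rk M1 e = α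

/-- SRDC: descent, the strongly regular type over `M` -/
def ST_SRDC : Prop := ∀ (V G : Type) [Group G] [MulAction G V] (X : Ctx V G)
  (M M1 M3 : Set V) (s : Ty V) (α : Ordinal.{0}) (θ : Set (Fin 1 → V))
  (d e : Fin 1 → V), Mdl X M → Mdl X M1 → M ⊆ M1 → SR X s → s.A ⊆ M1 →
    X.Ov M θ → X.Dg1 α θ → (∀ E : Set (Fin 1 → V), X.Ov M E → ¬ X.Rge α E → OrF X s M E) →
    Rl X s M1 d → Atm X (M1 ∪ Set.range d) M3 → e ∈ θ → Set.range e ⊆ M3 →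
    ¬ SI X M1 (Set.range d) (Set.range e) → X.rk M1 e = α → SR X ⟨M, θ, e⟩ ∧ NO X ⟨M, θ, e⟩ s

/-- SRDN: descent -/
def ST_SRDN : Prop := ∀ (V G : Type) [Group G] [MulAction G V] (X : Ctx V G)
  (M M1 N1 : Set V) (s q : Ty V), Mdl X M → Mdl X M1 → Mdl X N1 → M ⊆ M1 → M ⊆ N1 →
    SI X M M1 N1 → SR X s → s.A ⊆ M1 → SR X q → q.A ⊆ N1 → NO X s q → Sp X M s

/-- SUPU: support, monotonicity -/
def ST_SUPU : Prop := ∀ (V G : Type) [Group G] [MulAction G V] (X : Ctx V G),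
  (∀ (M M' : Set V) (q : Ty V), M ⊆ M' → Sp X M q → Sp X M' q) ∧
  (∀ (b b' : Set V) (q : Ty V), b ⊆ b' → Sup X b q → Sup X b' q) ∧
  (∀ (M : Set V) (q q' : Ty V), SR X q → SR X q' → NO X q q' → Sp X M q → Sp X M q') ∧
  (∀ (b : Set V) (q q' : Ty V), SR X q → SR X q' → NO X q q' → Sup X b q → Sup X b q') ∧
  (∀ (M : Set V) (q : Ty V), SR X q → q.A ⊆ M → Sp X M q) ∧
  (∀ (M : Set V) (q : Ty V), SR X q → Sp X M q → ∃ p, SR X p ∧ p.A ⊆ M ∧ p.A.Finite ∧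
    NO X p q ∧ NO X q p) ∧
  (∀ (M : ℕ → Set V) (q : Ty V), SR X q → (∀ n, M n ⊆ M (n + 1)) → Sp X (⋃ n, M n) q →
    ∃ n, Sp X (M n) q) ∧
  (∀ (b e : Set V) (q : Ty V), b.Countable → e ⊆ acl G b → Sup X (b ∪ e) q → Sup X b q)

/-- SUPB -/
def ST_SUPB : Prop := ∀ (V G : Type) [Group G] [MulAction G V] (X : Ctx V G) (A M : Set V)
  (q : Ty V), A ⊆ M → Mdl X M → SR X q → SI X A M q.A → Sp X M q → Sup X A q

/-- SUPO -/
def ST_SUPO : Prop := ∀ (V G : Type) [Group G] [MulAction G V] (X : Ctx V G) (A : Set V),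
  A.Countable →
  (∀ q q' : Ty V, SR X q → SR X q' → NO X q q' → SI X A q.A q'.A → Sup X A q) ∧
  (∀ (u v : Set V) (q : Ty V), u.Countable → v.Countable → SR X q → Sup X (A ∪ u) q →
    Sup X (A ∪ v) q → SI X A u v → Sup X A q)

/-- ORT -/
def ST_ORT : Prop := ∀ (V G : Type) [Group G] [MulAction G V] (X : Ctx V G) (A h Y : Set V)
  (q : Ty V) (z : Fin 1 → V), SR X q → A ⊆ h → q.A ⊆ h → h.Countable → ¬ Sup X A q →
    Y.Countable → SI X A Y h → Rl X q h z → Rl X q (h ∪ Y) z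

/-- DIM: dimension -/
def ST_DIM : Prop := ∀ (V G : Type) [Group G] [MulAction G V] (X : Ctx V G) (p : Ty V),
  SR X p →
  (∀ (B N : Set V) (k k' : ℕ) (y : Fin k' → Fin 1 → V), Mdl X N → p.A ⊆ N → B ⊆ N →
    Dmn X p B N k → (∀ i, Set.range (y i) ⊆ N ∧ Rl X p B (y i)) →
    Ind X (p.A ∪ B) (fun i => Set.range (y i)) → k' ≤ k) ∧
  (∀ (F N : Set V), p.A.Finite → F.Finite → Mdl X N → p.A ⊆ N → F ⊆ N → Om X p F N →
    ∃ k, Dmn X p ∅ N k) ∧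
  (∀ (B N N' : Set V) (n k : ℕ), Mdl X N → Mdl X N' → N ⊆ N' → p.A ⊆ N → B ⊆ N →
    Dmn X p B N n → Dmn X p N N' k → Dmn X p B N' (n + k)) ∧
  (∀ (N N' : Set V) (k : ℕ) (q : Ty V), SR X q → Mdl X N → Mdl X N' → N ⊆ N' → p.A ⊆ N →
    q.A ⊆ N → NO X p q → Dmn X p N N' k → Dmn X q N N' k) ∧
  (∀ (B N : Set V) (k : ℕ), B.Finite → B ⊆ N → Dmn X p B N k → Bd X p N) ∧
  (∀ (B N : Set V) (k : ℕ), Mdl X N → p.A ⊆ N → B ⊆ N →
    (∀ (y : Fin (k + 1) → Fin 1 → V), (∀ i, Set.range (y i) ⊆ N ∧ Rl X p B (y i)) →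
      ¬ Ind X (p.A ∪ B) (fun i => Set.range (y i))) → ∃ j ≤ k, Dmn X p B N j)

/-- CC: conjugate bases have the same dimension -/
def ST_CC : Prop := ∀ (V G : Type) [Group G] [MulAction G V] (X : Ctx V G) (Q a : Set V)
  (q : Ty V) (σ : G) (k : ℕ), Mdl X Q → a ⊆ Q → a.Finite → ENI X q → q.A ⊆ Q → σ ∈ Fx G a →
    tr σ q.A ⊆ Q → Stn X a q.A → (∀ τ ∈ Fx G a, NO X (mv τ q) q) → Dmn X q ∅ Q k →
    Dmn X (mv σ q) ∅ Q k

end Pool.Agent.Helper90.MZ
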