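import Pool.Agent.Helper90.MZ.StmtsA

/-!
# MP_79eb7e_lc, full answer: statements of parts C (coding) and D (structure)
Proofs: /team-store/h90_full79.md
-/

set_option autoImplicit false

namespace Pool.Agent.Helper90.MZ

open Pool.Agent.Helper90.TS

/-! ## C. Coding -/

/-- CTR: countably many types suffice -/
def ST_CTR : Prop := ∀ (V G : Type) [Group G] [MulAction G V] (X : Ctx V G) (N : Set V),
  N.Countable → (∃ p : Ty V, SR X p ∧ p.A.Finite ∧ p.A ⊆ N) →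
  ∃ r : ℕ → Ty V, (∀ n, SR X (r n) ∧ (r n).A.Finite ∧ (r n).A ⊆ N) ∧
    ∀ p : Ty V, SR X p → p.A.Finite → p.A ⊆ N → ∃ n, (r n).A = p.A ∧ (r n).D = p.D ∧
      Eqv G p.A p.z (r n).z

/-- CTS: the step of the coding theorem -/
def ST_CTS : Prop := ∀ (V G : Type) [Group G] [MulAction G V] (X : Ctx V G) (κ : Type)
  [Countable κ] (q : κ → Ty V) (h : κ → Set V) (N : Set V), Mdl X N →
  (∀ i, SR X (q i) ∧ (q i).A ⊆ h i ∧ h i ⊆ N ∧ Om X (q i) (h i) N) →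
  ∃ N', Mdl X N' ∧ N ⊆ N' ∧ (∀ i, Om X (q i) (h i) N') ∧
    ∀ r : Ty V, SR X r → r.A.Finite → r.A ⊆ N → (∀ i, ¬ NO X r (q i)) →
      ∃ y : Fin 1 → V, Set.range y ⊆ N' ∧ Rl X r N y

/-- CT: the coding theorem -/
def ST_CT : Prop := ∀ (V G : Type) [Group G] [MulAction G V] (X : Ctx V G) (κ : Type)
  [Countable κ] (q : κ → Ty V) (h : κ → Set V) (A0 : Set V), A0.Countable →
  (∀ i, SR X (q i) ∧ (q i).A ⊆ h i ∧ h i ⊆ A0 ∧ (∀ y, Rl X (q i) (h i) y → ¬ Isl X (h i) y) ∧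
    ∀ y, Rl X (q i) (h i) y → Rl X (q i) A0 y) →
  ∃ N, Mdl X N ∧ A0 ⊆ N ∧ (∀ i, Om X (q i) (h i) N) ∧
    ∀ r : Ty V, SR X r → r.A.Finite → r.A ⊆ N → (∀ i, ¬ NO X r (q i)) → ¬ Bd X r N

/-- FWB: few models with finitely many constants -/
def ST_FWB : Prop := ∀ (V G : Type) [Group G] [MulAction G V] (X : Ctx V G) (b : Set V),
  Few X → b.Finite → ¬ ∃ F : (ℕ → Bool) → Set V, (∀ s, Mdl X (F s) ∧ b ⊆ F s) ∧
    ∀ s t, (∃ g ∈ Fx G b, tr g (F s) = F t) → s = t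

/-- PRB: representatives with independent bases -/
def ST_PRB : Prop := ∀ (V G : Type) [Group G] [MulAction G V] (X : Ctx V G) (b : Set V),
  b.Countable →
  (∀ (κ : Type) [Countable κ] (C : κ → Ty V) (i : κ), SR X (C i) → (C i).A.Finite →
    Idp X b C {i}) ∧
  (∀ (κ : Type) [Countable κ] (C : κ → Ty V) (J J' : Set κ), J' ⊆ J → Idp X b C J →
    Idp X b C J') ∧
  (∀ (κ κ' : Type) [Countable κ] [Countable κ'] (C : κ → Ty V) (C' : κ' → Ty V) (f : κ' → κ)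
    (J : Set κ'), Set.InjOn f J → (∀ i, SR X (C i)) → (∀ i, SR X (C' i)) →
    (∀ i ∈ J, NO X (C (f i)) (C' i)) → Idp X b C (f '' J) → Idp X b C' J) ∧
  (∀ q q' : Ty V, SR X q → SR X q' → NO X q q' → ¬ Sup X b q → ¬ SI X b q.A q'.A) ∧
  (∀ (q q' : Ty V) (y : Set V), SR X q → SR X q' → q'.A.Countable → y.Countable →
    ¬ Sup X b q → NO X q' q → (∀ Y : Set V, Y.Countable → SI X b Y y → SI X b Y q'.A) →
    NB X b y q) ∧
  (∀ (q : Ty V) (y : Set V), SR X q → y.Countable → Sup X (b ∪ y) q → ¬ Sup X b q →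
    NB X b y q)

/-- BLK: blocks -/
def ST_BLK : Prop := ∀ (V G : Type) [Group G] [MulAction G V] (X : Ctx V G) (b : Set V)
  (m : ℕ → ℕ) (C : (n : ℕ) → Fin (m n) → Ty V) (h : ℕ → Set V) (x : ℕ → Bool), b.Finite →
  (∀ n, Fam X b (C n) ∧ (h n).Finite ∧ b ⊆ h n ∧ ∀ j, (C n j).A ⊆ h n ∧
    ∀ y, Rl X (C n j) (h n) y → ¬ Isl X (h n) y) → Ind X b h →
  ∃ N, Mdl X N ∧ b ⊆ N ∧ (∀ n, x n = true → h n ⊆ N ∧ ∀ j, Bd X (C n j) N) ∧
    (∀ r : Ty V, ENI X r → r.A ⊆ N → Bd X r N → ∃ n, x n = true ∧ ∃ j, NO X r (C n j)) ∧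
    ∀ (k : ℕ) (E : Fin k → Ty V), Fam X b E → (∀ i, (E i).A ⊆ N ∧ Bd X (E i) N) →
      Indec X b E → 0 < k → ∃ n, x n = true ∧ ∀ i, ∃ j, NO X (E i) (C n j)

/-- PKA: indecomposable families are bounded -/
def ST_PKA : Prop := ∀ (V G : Type) [Group G] [MulAction G V] (X : Ctx V G) (b : Set V),
  Few X → b.Finite → ∃ K : ℕ, ∀ (k : ℕ) (C : Fin k → Ty V), Fam X b C → Indec X b C → k ≤ K

/-- PK -/
def ST_PK : Prop := ∀ (V G : Type) [Group G] [MulAction G V] (X : Ctx V G) (b : Set V),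
  Few X → b.Finite → ∃ K : ℕ, ∀ (k : ℕ) (C : Fin k → Ty V), Fam X b C →
    ∃ J : Finset (Fin k), Idp X b C (J : Set (Fin k)) ∧ k ≤ K * J.card

/-- FIN: finiteness -/
def ST_FIN : Prop := ∀ (V G : Type) [Group G] [MulAction G V] (X : Ctx V G) (b : Set V),
  Few X → b.Finite → ∃ K : ℕ, ∀ (y : Set V) (w : ℕ), y.Countable → WB X b y w →
    ∀ (k : ℕ) (C : Fin k → Ty V), Fam X b C → (∀ i, NB X b y (C i)) → k ≤ K * w

/-- FO: finite orbits of classes -/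
def ST_FO : Prop := ∀ (V G : Type) [Group G] [MulAction G V] (X : Ctx V G) (b : Set V)
  (q : Ty V), b.Finite → SR X q → q.A.Finite → Sup X b q →
  (∃ e ⊆ acl G b, e.Finite ∧ ∀ σ ∈ Fx G (b ∪ e), NO X (mv σ q) q) ∧
  (∃ (m : ℕ) (τ : Fin m → G), (∀ i, τ i ∈ Fx G b) ∧ ∀ σ ∈ Fx G b, ∃ i,
    NO X (mv σ q) (mv (τ i) q)) ∧
  (Stn X b q.A → ∀ σ ∈ Fx G b, NO X (mv σ q) q)

/-- ORB: choice of classes in different orbits -/
def ST_ORBC : Prop := ∀ (V G : Type) [Group G] [MulAction G V] (X : Ctx V G) (b : Set V)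
  (C : ℕ → Ty V), b.Finite → (∀ n, SR X (C n) ∧ (C n).A.Finite ∧ Sup X b (C n)) →
  (∀ m n, m ≠ n → ¬ NO X (C m) (C n)) → ∃ f : ℕ → ℕ, Function.Injective f ∧
    ∀ m n, ∀ σ ∈ Fx G b, NO X (mv σ (C (f m))) (C (f n)) → m = n

/-- LFN: finitely many ENI classes at level zero -/
def ST_LFN : Prop := ∀ (V G : Type) [Group G] [MulAction G V] (X : Ctx V G) (b : Set V),
  Few X → b.Finite → ¬ ∃ C : ℕ → Ty V, (∀ n, ENI X (C n) ∧ Sup X b (C n)) ∧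
    ∀ m n, m ≠ n → ¬ NO X (C m) (C n)

/-! ## D. Structure -/

/-- NDPG: the grid of conjugates -/
def ST_NDPG : Prop := ∀ (V G : Type) [Group G] [MulAction G V] (X : Ctx V G)
  (M Mu Mv : Set V) (n : ℕ), Mdl X M → M ⊆ Mu → M ⊆ Mv → Mu.Countable → Mv.Countable →
  SI X M Mu Mv → ∃ (α β : Fin n → G) (σ : Fin n → Fin n → G),
    (∀ i, α i ∈ Fx G M ∧ β i ∈ Fx G M) ∧ (∀ i j, σ i j ∈ Fx G M) ∧
    (∀ i j, ∀ x ∈ Mu, σ i j • x = α i • x) ∧ (∀ i j, ∀ x ∈ Mv, σ i j • x = β j • x) ∧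
    Ind X M (Sum.elim (fun i => tr (α i) Mu) (fun j => tr (β j) Mv))

/-- NDP: the ENI dimensional order property fails -/
def ST_NDP : Prop := ∀ (V G : Type) [Group G] [MulAction G V] (X : Ctx V G)
  (M Mu Mv N u v : Set V) (q : Ty V), Few X → Mdl X M → u.Finite → v.Finite →
  Atm X (M ∪ u) Mu → Atm X (M ∪ v) Mv → SI X M u v → Atm X (Mu ∪ Mv) N → ENI X q →
  Sp X N q → Sp X Mu q ∨ Sp X Mv q

/-- NFV: classes above `z`, the free case -/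
def ST_NFV : Prop := ∀ (V G : Type) [Group G] [MulAction G V] (X : Ctx V G)
  (b M0 Mv : Set V) (q : Ty V) (z : Fin 1 → V), Few X → b.Finite → Mdl X M0 → b ⊆ M0 →
  ENI X q → SI X b M0 (Set.range z ∪ q.A) → Atm X (M0 ∪ Set.range z) Mv → Sp X Mv q →
  ¬ Sp X M0 q → Sup X (b ∪ Set.range z) q

/-- NF: classes above `z` come from `b ∪ z` -/
def ST_NF : Prop := ∀ (V G : Type) [Group G] [MulAction G V] (X : Ctx V G)
  (b M N : Set V) (p q : Ty V) (z : Fin 1 → V), Few X → b.Finite → SR X p → p.A ⊆ b →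
  Mdl X M → b ⊆ M → Rl X p M z → Atm X (M ∪ Set.range z) N → ENI X q → Sp X N q →
  ¬ Sp X M q → Sup X (b ∪ Set.range z) q

/-- ACI: active types -/
def ST_ACI : Prop := ∀ (V G : Type) [Group G] [MulAction G V] (X : Ctx V G) (p : Ty V),
  SR X p → Act X p →
  (∀ p' : Ty V, SR X p' → NO X p p' → Act X p') ∧
  (∀ (M : Set V), Mdl X M → p.A ⊆ M → ∃ (M' N : Set V) (z : Fin 1 → V) (q : Ty V), M ⊆ M' ∧
    Mdl X M' ∧ Rl X p M' z ∧ Atm X (M' ∪ Set.range z) N ∧ ENI X q ∧ Sp X N q ∧ ¬ Sp X M' q) ∧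
  (Few X → ∀ (M N : Set V) (z : Fin 1 → V), Mdl X M → p.A ⊆ M → Rl X p M z →
    Atm X (M ∪ Set.range z) N → ∃ q : Ty V, ENI X q ∧ Sp X N q ∧ ¬ Sp X M q)

/-- NTG: configuration for triviality -/
def ST_NTG : Prop := ∀ (V G : Type) [Group G] [MulAction G V] (X : Ctx V G) (b : Set V)
  (p : Ty V) (e : Fin 3 → Fin 1 → V) (n : ℕ), SR X p → b.Countable → p.A ⊆ b →
  (∀ i, Rl X p b (e i)) →
  (∀ i j, i ≠ j → SI X b (Set.range (e i)) (Set.range (e j))) →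
  ∃ (y : Fin n → Fin 1 → V) (τ : Fin n → Fin n → G), (∀ i, Rl X p b (y i)) ∧
    Ind X b (fun i => Set.range (y i)) ∧ (∀ i j, τ i j ∈ Fx G b) ∧
    (∀ i j, i < j → τ i j • e 0 = y i ∧ τ i j • e 1 = y j) ∧
    (∀ i j k l, i < j → k < l → (i, j) ≠ (k, l) →
      SI X b (Set.range (τ i j • e 2)) (Set.range (τ k l • e 2)))

/-- TRI: triviality follows from the case of three realizations -/
def ST_TRI : Prop := ∀ (V G : Type) [Group G] [MulAction G V] (X : Ctx V G) (p : Ty V),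
  SR X p → (∀ B : Set V, B.Countable → ∀ e : Fin 3 → Fin 1 → V, (∀ i, Rl X p B (e i)) →
    (∀ i j, i ≠ j → SI X (p.A ∪ B) (Set.range (e i)) (Set.range (e j))) →
    SI X (p.A ∪ B) (Set.range (e 2)) (Set.range (e 0) ∪ Set.range (e 1))) → Triv X p

/-- NT: active types are trivial -/
def ST_NT : Prop := ∀ (V G : Type) [Group G] [MulAction G V] (X : Ctx V G) (p : Ty V),
  Few X → SR X p → Act X p → Triv X p

/-- TL -/
def ST_TL : Prop := ∀ (V G : Type) [Group G] [MulAction G V] (X : Ctx V G) (p : Ty V)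
  (B Y : Set V) (κ : Type) [Countable κ] (z : κ → Fin 1 → V), SR X p → Triv X p →
  B.Countable → Y.Countable → (∀ i, Rl X p B (z i)) →
  Ind X (p.A ∪ B) (fun i => Set.range (z i)) →
  (∀ i, SI X (p.A ∪ B) (Set.range (z i)) Y) → SI X (p.A ∪ B) (⋃ i, Set.range (z i)) Y

/-- TLS -/
def ST_TLS : Prop := ∀ (V G : Type) [Group G] [MulAction G V] (X : Ctx V G) (s : ℕ)
  (p : Fin s → Ty V) (A Y : Set V) (κ : Type) [Countable κ] (l : κ → Fin s)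
  (z : κ → Fin 1 → V), (∀ i, SR X (p i) ∧ Triv X (p i) ∧ (p i).A ⊆ A) →
  (∀ i j, i ≠ j → ¬ NO X (p i) (p j)) → A.Countable → Y.Countable →
  (∀ i, Rl X (p (l i)) A (z i)) → Ind X A (fun i => Set.range (z i)) →
  (∀ i, SI X A (Set.range (z i)) Y) → SI X A (⋃ i, Set.range (z i)) Y

/-- TA -/
def ST_TA : Prop := ∀ (V G : Type) [Group G] [MulAction G V] (X : Ctx V G) (p : Ty V)
  (B C e : Set V) (z : Fin 1 → V), SR X p → Triv X p → B.Countable → C.Countable →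
  e.Finite → SI X (p.A ∪ B) C e → Rl X p (B ∪ C) z →
  ¬ SI X (p.A ∪ B ∪ C) (Set.range z) e →
  ∃ z', Rl X p B z' ∧ ¬ SI X (p.A ∪ B) (Set.range z') e

/-- NN: active types come from the empty set -/
def ST_NN : Prop := ∀ (V G : Type) [Group G] [MulAction G V] (X : Ctx V G) (p : Ty V),
  Few X → SR X p → Act X p → Sup X ∅ p

/-- UAC: the class below an ENI class, over a free model -/
def ST_UAC : Prop := ∀ (V G : Type) [Group G] [MulAction G V] (X : Ctx V G)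
  (p q : Ty V) (M N : Set V) (z : Fin 1 → V), Few X → SR X p → ENI X q →
  Mdl X M → p.A ⊆ M → Rl X p M z → Atm X (M ∪ Set.range z) N → Sp X N q → ¬ Sp X M q →
  ∀ (M0 : Set V) (p0 : Ty V), Mdl X M0 → SI X ∅ M0 N → SR X p0 → p0.A ⊆ M0 → NO X p0 p →
    ¬ Sp X M0 q ∧ ∃ z0, Rl X p0 M0 z0 ∧ ∀ b0 : Set V, b0.Finite → p0.A ⊆ b0 → b0 ⊆ M0 →
      Sup X (b0 ∪ Set.range z0) q

/-- UA: uniqueness of the active class below an ENI class -/
def ST_UA : Prop := ∀ (V G : Type) [Group G] [MulAction G V] (X : Ctx V G)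
  (p p' q : Ty V) (M N M' N' : Set V) (z z' : Fin 1 → V), Few X → SR X p → SR X p' → ENI X q →
  Mdl X M → p.A ⊆ M → Rl X p M z → Atm X (M ∪ Set.range z) N → Sp X N q → ¬ Sp X M q →
  Mdl X M' → p'.A ⊆ M' → Rl X p' M' z' → Atm X (M' ∪ Set.range z') N' → Sp X N' q →
  ¬ Sp X M' q → NO X p p'

/-- ACF: finitely many active classes -/
def ST_ACF : Prop := ∀ (V G : Type) [Group G] [MulAction G V] (X : Ctx V G), Few X →
  ¬ ∃ C : ℕ → Ty V, (∀ n, SR X (C n) ∧ Act X (C n)) ∧ ∀ m n, m ≠ n → ¬ NO X (C m) (C n)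

end Pool.Agent.Helper90.MZ
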