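import Pool.Agent.Helper90.MZ.StmtsZ
import Pool.Agent.Helper90.TS.CStmts

/-!
# MP_79eb7e_lc, full answer: the final theorem and the concrete modules
Proofs: /team-store/h90_full79.md
-/

set_option autoImplicit false

namespace Pool.Agent.Helper90.MZ

open Pool.Agent.Helper90.TS
open FirstOrder Language

/-- `T` has fewer than `2^ℵ₀` countable models: a family of countable models indexed by `2^ω`
contains two isomorphic models with different indices. (Every countable model of `T` is isomorphic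
to an elementary substructure of `C`.) -/
def FewModels (L : FirstOrder.Language.{0, 0}) (C : Type) [L.Structure C] : Prop :=
  ∀ F : (ℕ → Bool) → L.ElementarySubstructure C, (∀ s, (F s : Set C).Countable) →
    ∃ s t, s ≠ t ∧ Nonempty (F s ≃[L] F t)

/-- The final theorem: the full answer to Q1. -/
def ST_FULL : Prop := ∀ (L : FirstOrder.Language.{0, 0}) (C : Type) [L.Structure C]
  (S : ℕ → Set C), Monster L C S → SmallTh L C → StableTh L C S → FewModels L C →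
  ∀ Φ : ℕ → Set C, (∀ i, (∅ : Set C).Definable₁ L (Φ i)) → (∀ i, ∃ N, Φ i ⊆ S N) →
  OmegaStableOn L (⋃ i, Φ i) →
  ∀ M : L.ElementarySubstructure C, (M : Set C).Countable →
  ∀ Q : Set C, Q = (M : Set C) ∩ ⋃ i, Φ i →
  ∀ (n : ℕ) (p : Typ L Q n), Good L (⋃ i, Φ i) Q p → ∃ a ⊆ Q, a.Finite ∧ TauBased L a p

/-- UMD: elementary substructures give models in the context -/
def ST_UMD : Prop := ∀ (L : FirstOrder.Language.{0, 0}) (C : Type) [L.Structure C] (T : Dt L C)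
  (X : Ctx T.V (AutG L C)), X.Df = T.Df → ∀ N : L.ElementarySubstructure C,
    (N : Set C).Countable → Mdl X {x : T.V | (x : C) ∈ N}

/-- UDC: models of the context are generated by their points in `Φ` -/
def ST_UDC : Prop := ∀ (L : FirstOrder.Language.{0, 0}) (C : Type) [L.Structure C] (T : Dt L C)
  (X : Ctx T.V (AutG L C)), X.Df = T.Df → ∀ F : Set T.V, Mdl X F → ∀ x : T.V, x ∈ F ↔
    ∃ (m : ℕ) (u : Fin m → T.V), (∀ i, u i ∈ F ∧ (u i : C) ∈ T.U0) ∧
      ∀ g : AutG L C, g • u = u → g • x = x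

/-- ISOE: isomorphisms of countable elementary substructures extend to automorphisms -/
def ST_ISOE : Prop := ∀ (L : FirstOrder.Language.{0, 0}) (C : Type) [L.Structure C]
  (S : ℕ → Set C), Monster L C S → ∀ (N N' : L.ElementarySubstructure C) (e : N ≃[L] N'),
    (N : Set C).Countable → ∃ g : AutG L C, ∀ x : N, g • (x : C) = (e x : C)

/-- OTB: realization of a coherent sequence of bounded definable sets -/
def ST_OTB : Prop := ∀ (L : FirstOrder.Language.{0, 0}) (C : Type) [L.Structure C]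
  [Nonempty C] (S : ℕ → Set C), Monster L C S → ∀ (k : ℕ → ℕ) (θ : (n : ℕ) → Set (Fin (k n) → C))
    (hk : Monotone k), (∀ n, (Set.univ : Set C).Definable L (θ n) ∧ Bdd S (θ n) ∧
      (θ n).Nonempty) →
    (∀ n, ∀ x ∈ θ (n + 1), x ∘ Fin.castLE (hk (Nat.le_succ n)) ∈ θ n) →
    ∃ c : ℕ → C, ∀ n, (fun i : Fin (k n) => c i) ∈ θ n

/-- OTH: the two steps of the Henkin construction -/
def ST_OTH : Prop := ∀ (L : FirstOrder.Language.{0, 0}) (C : Type) [L.Structure C]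
  [Nonempty C] (S : ℕ → Set C), Monster L C S → ∀ (A U : Set C), A ⊆ U →
  (∀ (D : Set (Unit → C)), A.Definable L D → D.Nonempty → (∀ y ∈ D, y () ∈ U) →
    ∃ y ∈ D, y () ∈ A) →
  ∀ (k : ℕ) (θ : Set (Fin k → C)), A.Definable L θ → Bdd S θ → θ.Nonempty →
  (∀ Ψ : Set (Fin k ⊕ Unit → C), A.Definable L Ψ → ∃ θ' : Set (Fin (k + 1) → C),
    A.Definable L θ' ∧ Bdd S θ' ∧ θ'.Nonempty ∧
    (∀ x ∈ θ', (fun i : Fin k => x i.castSucc) ∈ θ) ∧
    ((∀ x ∈ θ', Sum.elim (fun i : Fin k => x i.castSucc) (fun _ => x (Fin.last k)) ∈ Ψ) ∨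
      ∀ x ∈ θ', ∀ y, Sum.elim (fun i : Fin k => x i.castSucc) y ∉ Ψ)) ∧
  (∀ (j : Fin k) (D : Set (Unit → C)), Z0 L D → (∀ y ∈ D, y () ∈ U) → ∃ θ' ⊆ θ,
    A.Definable L θ' ∧ θ'.Nonempty ∧ ((∀ x ∈ θ', (fun _ => x j) ∉ D) ∨
      ∃ a ∈ A, ∀ x ∈ θ', x j = a))

/-- OTW: the Henkin construction -/
def ST_OTW : Prop := ∀ (L : FirstOrder.Language.{0, 0}) (C : Type) [L.Structure C]
  [Nonempty C] (S : ℕ → Set C), Monster L C S → ∀ (A U : Set C), A.Countable → A ⊆ U →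
  (∀ x ∈ U, ∃ D : Set (Unit → C), Z0 L D ∧ Bdd S D ∧ (fun _ => x) ∈ D ∧ ∀ y ∈ D, y () ∈ U) →
  (∀ (D : Set (Unit → C)), A.Definable L D → D.Nonempty → (∀ y ∈ D, y () ∈ U) →
    ∃ y ∈ D, y () ∈ A) →
  ∃ c : ℕ → C, (∀ (k : ℕ) (Ψ : Set (Fin k ⊕ Unit → C)), A.Definable L Ψ →
    (∃ y, Sum.elim (fun i : Fin k => c i) y ∈ Ψ) →
      ∃ j, Sum.elim (fun i : Fin k => c i) (fun _ => c j) ∈ Ψ) ∧ ∀ j, c j ∈ U → c j ∈ A

/-- OTS: omitting types theorem for the types `U \ A` -/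
def ST_OTS : Prop := ∀ (L : FirstOrder.Language.{0, 0}) (C : Type) [L.Structure C]
  (S : ℕ → Set C), Monster L C S → ∀ (A U : Set C), A.Countable → A ⊆ U →
  (∀ x ∈ U, ∃ D : Set (Unit → C), Z0 L D ∧ Bdd S D ∧ (fun _ => x) ∈ D ∧ ∀ y ∈ D, y () ∈ U) →
  (∀ (D : Set (Unit → C)), A.Definable L D → D.Nonempty → (∀ y ∈ D, y () ∈ U) →
    ∃ y ∈ D, y () ∈ A) →
  ∃ N : L.ElementarySubstructure C, (N : Set C).Countable ∧ A ⊆ N ∧ (N : Set C) ∩ U ⊆ A

/-- OTT: omitting types -/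
def ST_OTT : Prop := ∀ (L : FirstOrder.Language.{0, 0}) (C : Type) [L.Structure C] (T : Dt L C)
  (X : Ctx T.V (AutG L C)), X.Df = T.Df → ∀ F : Set T.V, Mdl X F →
    ∃ N : L.ElementarySubstructure C, (N : Set C).Countable ∧
      ∀ x : T.V, (x : C) ∈ T.U0 → ((x : C) ∈ N ↔ x ∈ F)

/-- FEW: few models of `T` give few models of the context -/
def ST_FEW : Prop := ∀ (L : FirstOrder.Language.{0, 0}) (C : Type) [L.Structure C] (T : Dt L C)
  (X : Ctx T.V (AutG L C)), X.Df = T.Df → FewModels L C → Few X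

end Pool.Agent.Helper90.MZ
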