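import Pool.Agent.Helper90.MZ.StmtsC

/-!
# MP_79eb7e_lc, full answer: statements of part Z (Theorem Z)
Proofs: /team-store/h90_full79.md
-/

set_option autoImplicit false

namespace Pool.Agent.Helper90.MZ

open Pool.Agent.Helper90.TS

variable {V G : Type} [Group G] [MulAction G V]

/-- the base set `W0` -/
def WW {κ : Type} (a : Set V) (z : κ → Fin 1 → V) (c : κ → Set V) : Set V :=
  a ∪ ⋃ i, (Set.range (z i) ∪ c i)

/-- property (Z3) of a realization `y` of an active type over `a` -/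
def Z3 (X : Ctx V G) (a : Set V) (y : Fin 1 → V) (c : Set V) : Prop :=
  (∃ (n : ℕ) (f : Fin n → V), Set.range f = c ∧ Dom X a (Set.range y) f) ∧
  Stn X a (Set.range y ∪ c) ∧
  ∀ r : Ty V, ENI X r → Sup X (a ∪ Set.range y) r → ¬ Sup X a r →
    ∃ q : Ty V, EN0 X q ∧ q.A ⊆ a ∪ (Set.range y ∪ c) ∧ NO X r q

/-- properties (Z1), (Z2), (Z3), (Z4) -/
structure ZS (X : Ctx V G) (Q a : Set V) (d : ℕ → V) {s : ℕ} (t : Fin s → Ty V) : Prop where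
  mdl : Mdl X Q
  afin : a.Finite
  aQ : a ⊆ Q
  t1 : ∀ l, SR X (t l) ∧ (t l).A ⊆ a ∧ Act X (t l)
  t2 : ∀ l l', l ≠ l' → ¬ NO X (t l) (t l')
  t3 : ∀ p : Ty V, SR X p → Act X p → ∃ l, NO X p (t l)
  z2 : ∀ l y, Rl X (t l) a y → Rl X (t l) (a ∪ Set.range d) y
  z3 : ∀ l y, Rl X (t l) a y → ∃ c : Set V, Z3 X a y c
  z4 : ∃ (m : ℕ) (q : Fin m → Ty V), (∀ j, EN0 X (q j) ∧ Sup X a (q j) ∧ Stn X a (q j).A ∧
    ∀ (n : ℕ) (g : Fin n → V), Set.range g ⊆ (q j).A → Isl X a g) ∧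
    (∀ i j, i ≠ j → ¬ NO X (q i) (q j)) ∧ ∀ r : Ty V, ENI X r → Sup X a r → ∃ j, NO X r (q j)

/-- the basis, part independent of `Q` -/
structure WS (X : Ctx V G) (a : Set V) {s : ℕ} (t : Fin s → Ty V) {κ : Type} (l : κ → Fin s)
    (z : κ → Fin 1 → V) (c : κ → Set V) : Prop where
  afin : a.Finite
  tsr : ∀ j, SR X (t j) ∧ (t j).A ⊆ a
  tno : ∀ i j, i ≠ j → ¬ NO X (t i) (t j)
  rl : ∀ i, Rl X (t (l i)) a (z i)
  ind : Ind X a (fun i => Set.range (z i) ∪ c i)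
  z3 : ∀ i, Z3 X a (z i) (c i)

/-- the basis in `Q` -/
structure WQ (X : Ctx V G) (Q a : Set V) {s : ℕ} (t : Fin s → Ty V) {κ : Type} (l : κ → Fin s)
    (z : κ → Fin 1 → V) (c : κ → Set V) : Prop extends WS X a t l z c where
  inQ : ∀ i, Set.range (z i) ⊆ Q ∧ c i ⊆ Q
  max : ∀ j, Om X (t j) (WW a z c) Q

/-- ZL -/
def ST_ZL : Prop := ∀ (V G : Type) [Group G] [MulAction G V] (X : Ctx V G) (d : ℕ → V),
  Small G d → ∀ (A : Set V) (p : Ty V), A.Finite → SR X p → p.A ⊆ A →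
    ∃ n, ∀ m ≥ n, ∀ y, Rl X p (A ∪ ini d m) y → Rl X p (A ∪ Set.range d) y

/-- ZCA: the active types -/
def ST_ZCA : Prop := ∀ (V G : Type) [Group G] [MulAction G V] (X : Ctx V G) (Q : Set V),
  Few X → Mdl X Q → ∃ (a : Set V) (s : ℕ) (t : Fin s → Ty V), a.Finite ∧ a ⊆ Q ∧
    (∀ l, SR X (t l) ∧ (t l).A ⊆ a ∧ Act X (t l)) ∧ (∀ l l', l ≠ l' → ¬ NO X (t l) (t l')) ∧
    ∀ p : Ty V, SR X p → Act X p → ∃ l, NO X p (t l)

/-- ZCB: the classes above a realization of an active type -/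
def ST_ZCB : Prop := ∀ (V G : Type) [Group G] [MulAction G V] (X : Ctx V G) (Q a1 : Set V)
  (p : Ty V), Few X → Mdl X Q → a1.Finite → a1 ⊆ Q → SR X p → p.A ⊆ a1 →
    ∃ a2 : Set V, a2.Finite ∧ a1 ⊆ a2 ∧ a2 ⊆ Q ∧ ∀ a : Set V, a.Finite → a2 ⊆ a → a ⊆ Q →
      ∀ y, Rl X p a y → ∃ c : Set V, Z3 X a y c

/-- ZCD: the classes of level zero -/
def ST_ZCD : Prop := ∀ (V G : Type) [Group G] [MulAction G V] (X : Ctx V G) (a : Set V),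
  Few X → a.Finite → ∃ e ⊆ acl G a, e.Finite ∧ ∃ (m : ℕ) (q : Fin m → Ty V),
    (∀ j, EN0 X (q j) ∧ Sup X (a ∪ e) (q j) ∧ Stn X (a ∪ e) (q j).A ∧
      ∀ (n : ℕ) (g : Fin n → V), Set.range g ⊆ (q j).A → Isl X (a ∪ e) g) ∧
    (∀ i j, i ≠ j → ¬ NO X (q i) (q j)) ∧
    ∀ r : Ty V, ENI X r → Sup X (a ∪ e) r → ∃ j, NO X r (q j)

/-- ZCH: choice of `a` -/
def ST_ZCH : Prop := ∀ (V G : Type) [Group G] [MulAction G V] (X : Ctx V G) (Q : Set V)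
  (d : ℕ → V), Few X → Mdl X Q → Set.range d ⊆ Q → Small G d →
    ∃ (a : Set V) (s : ℕ) (t : Fin s → Ty V), ZS X Q a d t

/-- ZBE: the basis exists -/
def ST_ZBE : Prop := ∀ (V G : Type) [Group G] [MulAction G V] (X : Ctx V G) (Q a : Set V)
  (d : ℕ → V) (s : ℕ) (t : Fin s → Ty V), ZS X Q a d t →
    ∃ (κ : Type) (_ : Countable κ) (l : κ → Fin s) (z : κ → Fin 1 → V) (c : κ → Set V),
      WQ X Q a t l z c

/-- ZBI: the basis is independent from `d` -/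
def ST_ZBI : Prop := ∀ (V G : Type) [Group G] [MulAction G V] (X : Ctx V G) (Q a : Set V)
  (d : ℕ → V) (s : ℕ) (t : Fin s → Ty V) (κ : Type) [Countable κ] (l : κ → Fin s)
  (z : κ → Fin 1 → V) (c : κ → Set V), Few X → ZS X Q a d t → WQ X Q a t l z c →
    ∀ σ ∈ Fx G a, SI X a (WW a z c) (Set.range (fun i => σ • d i)) ∧
      ∃ σ' ∈ Fx G (WW a z c), ∀ i, σ' • d i = σ • d i

/-- ZA: Claim A -/
def ST_ZA : Prop := ∀ (V G : Type) [Group G] [MulAction G V] (X : Ctx V G) (Q a : Set V)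
  (d : ℕ → V) (s : ℕ) (t : Fin s → Ty V) (κ : Type) [Countable κ] (l : κ → Fin s)
  (z : κ → Fin 1 → V) (c : κ → Set V), Few X → ZS X Q a d t → WQ X Q a t l z c →
    ∀ r : Ty V, ENI X r → r.A ⊆ Q → Sup X (WW a z c) r

/-- ZC: classification of the ENI classes over `Q` -/
def ST_ZC : Prop := ∀ (V G : Type) [Group G] [MulAction G V] (X : Ctx V G) (Q a : Set V)
  (d : ℕ → V) (s : ℕ) (t : Fin s → Ty V) (κ : Type) [Countable κ] (l : κ → Fin s)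
  (z : κ → Fin 1 → V) (c : κ → Set V), Few X → ZS X Q a d t → WQ X Q a t l z c →
    ∀ r : Ty V, ENI X r → r.A ⊆ Q → Sup X a r ∨
      ∃ i, Sup X (a ∪ Set.range (z i)) r ∧ ¬ Sup X a r

/-- LOCI: adding pieces of the basis, type by type orthogonal -/
def ST_LOCI : Prop := ∀ (V G : Type) [Group G] [MulAction G V] (X : Ctx V G) (a : Set V)
  (s : ℕ) (t : Fin s → Ty V) (κ : Type) [Countable κ] (l : κ → Fin s)
  (z : κ → Fin 1 → V) (c : κ → Set V) (I : Set κ) (E : Set V) (p : Ty V) (y : Fin 1 → V),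
  WS X a t l z c → E.Countable → a ⊆ E → SI X a (⋃ i ∈ I, (Set.range (z i) ∪ c i)) E →
  SR X p → p.A ⊆ E → (∀ j, ¬ NO X p (t j)) → Rl X p E y →
  Rl X p (E ∪ ⋃ i ∈ I, (Set.range (z i) ∪ c i)) y

/-- LOCK: adding realizations of orthogonal types -/
def ST_LOCK : Prop := ∀ (V G : Type) [Group G] [MulAction G V] (X : Ctx V G)
  (κ' : Type) [Countable κ'] (q : κ' → Ty V) (b : κ' → Fin 1 → V) (K : Set κ') (E : Set V)
  (p : Ty V) (y : Fin 1 → V), E.Countable → (∀ k ∈ K, SR X (q k) ∧ (q k).A ⊆ E ∧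
    Rl X (q k) (E ∪ ⋃ k' ∈ K \ {k}, Set.range (b k')) (b k)) →
  SR X p → p.A ⊆ E → (∀ k ∈ K, ¬ NO X p (q k)) → Rl X p E y →
  Rl X p (E ∪ ⋃ k ∈ K, Set.range (b k)) y

/-- ORC: orthogonal classes are independent -/
def ST_ORC : Prop := ∀ (V G : Type) [Group G] [MulAction G V] (X : Ctx V G) (M : Set V)
  (Ξ : Type) (q : Ξ → Ty V) (κ' : Type) [Countable κ'] (ξ : κ' → Ξ) (b : κ' → Fin 1 → V),
  M.Countable → (∀ x, SR X (q x) ∧ (q x).A ⊆ M) → (∀ x y, x ≠ y → ¬ NO X (q x) (q y)) →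
  (∀ k, Rl X (q (ξ k)) M (b k)) →
  (∀ x, Ind X M (fun k : {k // ξ k = x} => Set.range (b k))) →
  Ind X M (fun k => Set.range (b k))

/-- UNQ: uniqueness of independent families of realizations -/
def ST_UNQ : Prop := ∀ (V G : Type) [Group G] [MulAction G V] (X : Ctx V G) (M : Set V)
  (κ' : Type) [Countable κ'] (q : κ' → Ty V) (b b' : κ' → Fin 1 → V),
  M.Countable → (∀ k, SR X (q k) ∧ (q k).A ⊆ M ∧ Rl X (q k) M (b k) ∧ Rl X (q k) M (b' k)) →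
  Ind X M (fun k => Set.range (b k)) → Ind X M (fun k => Set.range (b' k)) →
  ∃ g ∈ Fx G M, ∀ k, g • b k = b' k

/-- LOC: types orthogonal to the pieces are determined over finite sets -/
def ST_LOC : Prop := ∀ (V G : Type) [Group G] [MulAction G V] (X : Ctx V G) (a : Set V)
  (d : ℕ → V) (s : ℕ) (t : Fin s → Ty V) (κ : Type) [Countable κ] (l : κ → Fin s)
  (z : κ → Fin 1 → V) (c : κ → Set V) (M1 F0 : Set V) (κ' : Type) [Countable κ']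
  (q : κ' → Ty V) (b : κ' → Fin 1 → V) (M2 γ : Set V) (p : Ty V),
  WS X a t l z c → Small G d → SI X a (WW a z c) (Set.range d) →
  Atm X (WW a z c ∪ Set.range d) M1 → F0 ⊆ M1 → F0.Finite →
  (∀ k, SR X (q k) ∧ (q k).A.Finite ∧ (q k).A ⊆ WW a z c ∪ Set.range d ∪ F0 ∧
    Rl X (q k) M1 (b k)) → Ind X M1 (fun k => Set.range (b k)) →
  Atm X (WW a z c ∪ Set.range d ∪ F0 ∪ ⋃ k, Set.range (b k)) M2 → γ ⊆ M2 → γ.Finite →
  SR X p → p.A ⊆ γ → (∀ j, ¬ NO X p (t j)) → (∀ k, ¬ NO X p (q k)) →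
  ∃ F ⊆ WW a z c ∪ Set.range d ∪ F0 ∪ ⋃ k, Set.range (b k), F.Finite ∧
    ∀ y, Rl X p (γ ∪ F) y →
      Rl X p (γ ∪ (WW a z c ∪ Set.range d ∪ F0 ∪ ⋃ k, Set.range (b k))) y

/-- LOB: types in the list are bounded in `M1` -/
def ST_LOB : Prop := ∀ (V G : Type) [Group G] [MulAction G V] (X : Ctx V G) (a : Set V)
  (d : ℕ → V) (s : ℕ) (t : Fin s → Ty V) (κ : Type) [Countable κ] (l : κ → Fin s)
  (z : κ → Fin 1 → V) (c : κ → Set V) (M1 : Set V) (q : Ty V),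
  WS X a t l z c → Small G d → SI X a (WW a z c) (Set.range d) →
  Atm X (WW a z c ∪ Set.range d) M1 → EN0 X q → q.A ⊆ M1 → (∀ j, ¬ NO X q (t j)) →
  ∃ F ⊆ WW a z c ∪ Set.range d ∪ q.A, F.Finite ∧ q.A ⊆ F ∧ Om X q F M1

/-- ZQA: `M1` is atomic over the base with the bases of the types in the list added -/
def ST_ZQA : Prop := ∀ (V G : Type) [Group G] [MulAction G V] (X : Ctx V G) (S M1 F0 : Set V)
  (κ' : Type) [Countable κ'] (q : κ' → Ty V) (F : κ' → Set V) (b : κ' → Fin 1 → V)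
  (N : Set V), Atm X S M1 → F0 ⊆ M1 → F0.Finite →
  (∀ k, SR X (q k) ∧ (q k).A ⊆ F k ∧ (F k).Finite ∧ F k ⊆ S ∪ F0 ∧ Om X (q k) (F k) M1 ∧
    Rl X (q k) M1 (b k)) → (∀ j k, q j = q k ∨ ¬ NO X (q j) (q k)) →
  (∀ j k, q j = q k → F j = F k) →
  Ind X M1 (fun k => Set.range (b k)) → Atm X (M1 ∪ ⋃ k, Set.range (b k)) N →
  Atm X (S ∪ F0 ∪ ⋃ k, Set.range (b k)) N

/-- the list of types over `M1` with bases in `Q` -/
structure BS (X : Ctx V G) (Q M1 : Set V) {Ξ : Type} (q : Ξ → Ty V) {κ' : Type} (ξ : κ' → Ξ)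
    (b : κ' → Fin 1 → V) : Prop where
  inQ : ∀ k, Set.range (b k) ⊆ Q
  rl : ∀ k, Rl X (q (ξ k)) M1 (b k)
  ind : Ind X M1 (fun k => Set.range (b k))
  max : ∀ x, Om X (q x) (M1 ∪ ⋃ k, Set.range (b k)) Q

/-- the list `q` of ENI types over `M1` -/
structure LS (X : Ctx V G) (Q S M1 F0 : Set V) {s : ℕ} (t : Fin s → Ty V) {Ξ : Type}
    (q : Ξ → Ty V) : Prop where
  en : ∀ x, EN0 X (q x) ∧ (q x).A ⊆ S ∪ F0
  no : ∀ x y, x ≠ y → ¬ NO X (q x) (q y)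
  nt : ∀ x j, ¬ NO X (q x) (t j)
  full : ∀ r : Ty V, ENI X r → r.A ⊆ Q → (∃ x, NO X r (q x)) ∨ ∃ j, NO X r (t j)

/-- ZQ: `Q` is atomic over the base -/
def ST_ZQ : Prop := ∀ (V G : Type) [Group G] [MulAction G V] (X : Ctx V G) (Q a : Set V)
  (d : ℕ → V) (s : ℕ) (t : Fin s → Ty V) (κ : Type) [Countable κ] (l : κ → Fin s)
  (z : κ → Fin 1 → V) (c : κ → Set V) (M1 F0 : Set V) (Ξ : Type) [Countable Ξ]
  (q : Ξ → Ty V) (κ' : Type) [Countable κ'] (ξ : κ' → Ξ) (b : κ' → Fin 1 → V),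
  Mdl X Q → WQ X Q a t l z c → Small G d → SI X a (WW a z c) (Set.range d) →
  M1 ⊆ Q → Atm X (WW a z c ∪ Set.range d) M1 → F0 ⊆ M1 → F0.Finite →
  LS X Q (WW a z c ∪ Set.range d) M1 F0 t q → BS X Q M1 q ξ b →
  Atm X (WW a z c ∪ Set.range d ∪ F0 ∪ ⋃ k, Set.range (b k)) Q

/-- ZX: the list of types -/
def ST_ZX : Prop := ∀ (V G : Type) [Group G] [MulAction G V] (X : Ctx V G) (Q a : Set V)
  (d : ℕ → V) (s : ℕ) (t : Fin s → Ty V) (κ : Type) [Countable κ] (l : κ → Fin s)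
  (z : κ → Fin 1 → V) (c : κ → Set V) (M1 : Set V), Few X → ZS X Q a d t →
  WQ X Q a t l z c → M1 ⊆ Q → Atm X (WW a z c ∪ Set.range d) M1 →
  ∃ (F0 : Set V) (Ξ : Type) (_ : Countable Ξ) (q : Ξ → Ty V), F0 ⊆ M1 ∧ F0.Finite ∧
    LS X Q (WW a z c ∪ Set.range d) M1 F0 t q ∧
    ∀ x, (q x).A ⊆ WW a z c ∨ (Stn X a (q x).A ∧ ∀ τ ∈ Fx G a, NO X (mv τ (q x)) (q x))

/-- ZDM: equality of dimensions -/
def ST_ZDM : Prop := ∀ (V G : Type) [Group G] [MulAction G V] (X : Ctx V G) (Q a W M1 : Set V)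
  (q : Ty V) (f : G) (k : ℕ), Mdl X Q → a.Finite → a ⊆ W → W ⊆ M1 → M1 ⊆ Q → Mdl X M1 →
  tr f M1 ⊆ Q → f ∈ Fx G W → EN0 X q → q.A ⊆ M1 → Bd X q M1 →
  (q.A ⊆ W ∨ (Stn X a q.A ∧ ∀ τ ∈ Fx G a, NO X (mv τ q) q)) →
  (Dmn X q M1 Q k ↔ Dmn X (mv f q) (tr f M1) Q k)

/-- ZSB: matching bases -/
def ST_ZSB : Prop := ∀ (V G : Type) [Group G] [MulAction G V] (X : Ctx V G) (Q M1 : Set V)
  (f : G) (Ξ : Type) [Countable Ξ] (q : Ξ → Ty V), Mdl X Q → Mdl X M1 → M1 ⊆ Q →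
  tr f M1 ⊆ Q → (∀ x, SR X (q x) ∧ (q x).A ⊆ M1) → (∀ x y, x ≠ y → ¬ NO X (q x) (q y)) →
  (∀ x k, Dmn X (q x) M1 Q k ↔ Dmn X (mv f (q x)) (tr f M1) Q k) →
  ∃ (κ' : Type) (_ : Countable κ') (ξ : κ' → Ξ) (b b' : κ' → Fin 1 → V) (h : G),
    BS X Q M1 q ξ b ∧ BS X Q (tr f M1) (fun x => mv f (q x)) ξ b' ∧
    (∀ x ∈ M1, h • x = f • x) ∧ ∀ k, h • b k = b' k

/-- ZZ: Theorem Z -/
def ST_ZZ : Prop := ∀ (V G : Type) [Group G] [MulAction G V] (X : Ctx V G) (Q : Set V)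
  (d : ℕ → V), Few X → Mdl X Q → Set.range d ⊆ Q → Small G d → ∃ a ⊆ Q, a.Finite ∧
    ∀ d' : ℕ → V, Set.range d' ⊆ Q → SqEq G a d d' → ∃ g ∈ Fx G a, tr g Q = Q ∧
      ∀ i, g • d i = d' i

/-- BAI: change of the base, by a Baire category argument -/
def ST_BAI : Prop := ∀ (V G : Type) [Group G] [MulAction G V] (_ : Ctx V G) (Q a0 a : Set V)
  (d d' : ℕ → V), Q.Countable → a0 ⊆ Q → a0.Finite → Set.range d ⊆ Q →
  (∀ d' : ℕ → V, Set.range d' ⊆ Q → SqEq G a0 d d' → ∃ g ∈ Fx G a0, tr g Q = Q ∧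
    ∀ i, g • d i = d' i) → a ⊆ Q → a.Finite → Fx G a ≤ Fx G a0 →
  (∀ n, ∃ g ∈ Fx G a, tr g Q = Q ∧ ∀ i < n, g • d i = d' i) →
  ∃ g ∈ Fx G a, tr g Q = Q ∧ ∀ i, g • d i = d' i

end Pool.Agent.Helper90.MZ
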